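import Pool.Agent.N974.PG.Kap
import Pool.Agent.N975.PG.Frz
import Pool.Agent.N975.S17.Lv

/-!
# Positive odd discriminants: the central value of the twist in terms of the odd homomorphism
-/

set_option autoImplicit false

open Finset UpperHalfPlane MatrixGroups CongruenceSubgroup

namespace Pool.Agent.N974.PG

open Pool.Agent.N975.PG (gn X Wt Parity wt_gn parity_gn par_one sum_jac cp17 jac_congr ca_of Fg_eq
  X_eq)
open Pool.Agent.N969.P15 (un)
open Pool.Agent.N969.P17G (Fg bd Gg)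
open Pool.Agent.N972.P17 (Cp)
open Pool.Agent.N974.Gen
open Pool.Agent.Y687 (RankBSD rankBSD)
open Pool.Agent.W97.MT (ap)
open Pool.Agent.N975.S17 (FinPts)

noncomputable section

theorem chrP_O {A : ℕ} (hA : Cp A) (h1 : 1 < A) : ChrP A (fun u => jacobiSym u A) where
  lt := h1
  per := fun _ _ h => jac_congr h
  mul := fun x y => jacobiSym.mul_left x y A
  zero := by
    intro x hx
    have : NeZero A := ⟨by omega⟩
    rw [jacobiSym.eq_zero_iff_not_coprime, Int.gcd_natCast_natCast]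
    exact hx
  pm := by
    intro x hx
    exact jacobiSym.eq_one_or_neg_one (by rw [Int.gcd_natCast_natCast]; exact hx)
  one := jacobiSym.one_left A
  neg := par_one hA.2.1
  v17 := by
    have h2 := jacobiSym.quadratic_reciprocity_one_mod_four (a := 17) (b := A) (by norm_num)
      (Nat.odd_iff.2 (by have := hA.2.1; omega))
    push_cast at h2
    show jacobiSym 17 A = 1
    rw [h2, hA.2.2]
  sum := by
    have h2 := sum_jac hA.1 (by have := hA.2.1; omega) h1
    rw [← h2]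
    refine Finset.sum_subset (Finset.filter_subset _ _) fun j hj hj2 => ?_
    have h3 : ¬ Nat.Coprime j A := fun h => hj2 (Finset.mem_filter.2 ⟨hj, h⟩)
    have : NeZero A := ⟨by omega⟩
    rw [jacobiSym.eq_zero_iff_not_coprime, Int.gcd_natCast_natCast]
    exact h3

theorem Gg_val {A : ℕ} (hA : Cp A) :
    X A (gn A) 1 3 - 2 * bdc A (fun u => jacobiSym u A) = Gg A 1 1 3 := by
  have h1 := X_eq hA.1 hA.2.1 (cp17 hA) (x := 1) (m := 3) (by norm_num)
  have h2 := Fg_eq (cp17 hA) 1 3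
  rw [h1, ← h2]
  unfold Gg bd bdc
  ring

variable {f : CuspForm (Gamma0 17 : Subgroup (GL (Fin 2) ℝ)) 2}

/-- the character sum of the even symbol, odd positive discriminants -/
theorem sum_re {a : ℕ → ℤ} (h : Eigen f a) {A : ℕ} (hA : Cp A) (h1 : 1 < A) :
    ∑ u ∈ un A, (jacobiSym u A : ℝ) * (II f ((u : ℚ) / A)).re =
      ((II f (1 / 3)).re - (II f 0).re) * ((Gg A 1 1 3 : ℤ) : ℝ) := by
  have W := wt_gn (A := A) (by have := hA.2.1; omega) (cp17 hA)
  have P := parity_gn hA.1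
  rw [par_one hA.2.1] at P
  have h2 := sum_even (chrP_O hA h1) (gw_gn hA.1 (cp17 hA)) W P (symbE_re h)
  rw [Gg_val hA] at h2
  exact h2

/-- **nonvanishing, odd positive discriminants** -/
theorem ne_posO (h : Eigen f (fun p => ap E17 p)) {A : ℕ} (hA : Cp A) (h1 : 1 < A)
    (hG : Gg A 1 1 3 ≠ 0) :
    ∃ F : ℂ → ℂ, Differentiable ℂ F ∧
      (∀ s : ℂ, (3 : ℝ) / 2 < s.re →
        HasProd (fun p : {p : ℕ // p.Prime ∧
            ¬ ((p : ℤ) ∣ 2 * (4 * (-91 * (A : ℤ) ^ 2) ^ 3 + 27 * (-330 * (A : ℤ) ^ 3) ^ 2))} =>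
          Pool.Agent.Y687.fac (-91 * (A : ℤ) ^ 2) (-330 * (A : ℤ) ^ 3) s p) (F s)) ∧
      F 1 ≠ 0 := by
  have hab : ((A : ℤ)).natAbs = A := Int.natAbs_natCast A
  refine neO_real h (-91) (-330) disc17 bad17 (fun _ => good17) (A : ℤ)
    (Int.squarefree_natCast.2 hA.1) (by rw [hab]; exact h1) (by have := hA.2.1; omega) (Or.inl ?_)
  rw [hab]
  have h2 := sum_re h hA h1
  rw [h2]
  refine mul_ne_zero (re_ne h ?_) (by exact_mod_cast hG)
  rw [ap17_2]
  norm_num

/-- the rank form of the conjecture, odd positive discriminants -/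
theorem bsd_posO (h : Eigen f (fun p => ap E17 p)) {A : ℕ} (hA : Cp A) (h1 : 1 < A)
    (hG : Gg A 1 1 3 ≠ 0) (hfin : FinPts (A : ℤ)) :
    RankBSD (-91 * (A : ℤ) ^ 2) (-330 * (A : ℤ) ^ 3) := by
  obtain ⟨F, hF, hFp, hF1⟩ := ne_posO h hA h1 hG
  exact rankBSD hF hFp hF1 hfin

end

end Pool.Agent.N974.PG
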