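import Pool.Agent.N974.PG.GnE
import Pool.Agent.N974.PG.Pos

/-!
# The symbol of the positive even discriminants; nonvanishing
-/

set_option autoImplicit false

open Finset UpperHalfPlane MatrixGroups CongruenceSubgroup

namespace Pool.Agent.N974.PG

open Pool.Agent.N975.PG (gn gp inF Wt Parity wi wo Mean E e E_mod
  X X_neg HH refl E'_pos E_neg wi_neg HH_hom HH_odd HH_T HH_V jac_prod Fa_split)
open Pool.Agent.N975.Sym (ev ev_neg)
open Pool.Agent.N969.P15 (un)
open Pool.Agent.N974.Gen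
open Pool.Agent.N974.Gen.ChP (Ev)
open Pool.Agent.N969.P17G (CpE chP gnE FgE bdE GgE FmA Fg bd)
open Pool.Agent.N972.P17 (Cp)
open Pool.Agent.Y687 (RankBSD rankBSD)
open Pool.Agent.W97.MT (ap)
open Pool.Agent.N975.S17 (FinPts)

noncomputable section

variable {A : ℕ} {χ : ℤ → ℤ} {w : ℤ × ℤ × ℤ → ℤ}

theorem sum_range (C : ChrP A χ) : ∑ u ∈ range A, χ u = 0 := by
  rw [← C.sum]
  symm
  refine Finset.sum_subset (Finset.filter_subset _ _) fun j hj hj2 => ?_
  exact C.zero j fun h => hj2 (Finset.mem_filter.2 ⟨hj, h⟩)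

theorem mean_chi (C : ChrP A χ) : Mean A χ := by
  unfold Mean
  refine Eq.trans ?_ (sum_range C)
  refine Finset.sum_bij' (fun C _ => (C + A).toNat) (fun C _ => (C : ℤ) - A) ?_ ?_ ?_ ?_ ?_
  · intro C hC
    rw [Finset.mem_Ico] at hC
    rw [Finset.mem_range]
    omega
  · intro C hC
    rw [Finset.mem_range] at hC
    rw [Finset.mem_Ico]
    omega
  · intro C hC
    rw [Finset.mem_Ico] at hC
    show ((C + A).toNat : ℤ) - A = C
    rw [Int.toNat_of_nonneg (by omega)]
    ring
  · intro C hC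
    show ((C : ℤ) - A + A).toNat = C
    rw [sub_add_cancel]
    exact Int.toNat_natCast C
  · intro D hD
    rw [Finset.mem_Ico] at hD
    have h2 : ((D + A).toNat : ℤ) = D + A := Int.toNat_of_nonneg (by omega)
    rw [h2]
    exact C.per _ _ ⟨-1, by ring⟩

/-- the boundary term as a finite sum -/
theorem E_chi (H : ChrP A χ) (x : ℤ) {m : ℤ} (hm : 0 < m) :
    E χ A x m = ∑ C ∈ range A, χ C * Int.sign ((A : ℤ) * (x % m) - (C : ℤ) * m) := by
  have h1 := H.lt
  have hper : ∀ C : ℤ, χ (C + A) = χ C := fun C => H.per _ _ ⟨1, by ring⟩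
  have hApos : (0 : ℤ) < A := by exact_mod_cast (by omega : 0 < A)
  rw [E_mod hApos hper (mean_chi H) x hm]
  obtain ⟨r, hr⟩ : ∃ r, r = x % m := ⟨_, rfl⟩
  rw [← hr]
  have hr0 : 0 ≤ r := by rw [hr]; exact Int.emod_nonneg _ hm.ne'
  have hr1 : r < m := by rw [hr]; exact Int.emod_lt_of_pos _ hm
  -- the change of the sign of the variable
  have hE : E χ A r m = ∑ᶠ C : ℤ, χ C * (Int.sign (A * r - C * m) + Int.sign C) := by
    unfold E
    rw [← finsum_comp_equiv (Equiv.neg ℤ)]
    refine finsum_congr fun C => ?_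
    show e χ A r m (-C) = _
    show χ (-C) * (Int.sign (A * r + -C * m) - Int.sign (-C)) = _
    have e1 : (A : ℤ) * r + -C * m = A * r - C * m := by ring
    rw [chi_neg H, e1, Int.sign_neg]
    ring
  rw [hE]
  have hs : Function.support (fun C : ℤ => χ C * (Int.sign (A * r - C * m) + Int.sign C)) ⊆
      (((Finset.range A).image (fun C : ℕ => (C : ℤ)) : Finset ℤ) : Set ℤ) := by
    intro C hC
    have h2 : χ C * (Int.sign (A * r - C * m) + Int.sign C) ≠ 0 := hC
    rw [Finset.mem_coe, Finset.mem_image]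
    by_cases h3 : 0 ≤ C ∧ C < A
    · refine ⟨C.toNat, ?_, Int.toNat_of_nonneg h3.1⟩
      rw [Finset.mem_range]
      omega
    · exfalso
      apply h2
      rw [not_and_or, not_le, not_lt] at h3
      rcases h3 with h3 | h3
      · have h4 : 0 < (A : ℤ) * r - C * m := by nlinarith
        rw [Int.sign_eq_one_of_pos h4, Int.sign_eq_neg_one_of_neg h3]
        ring
      · have h4 : (A : ℤ) * r - C * m < 0 := by nlinarith
        have h5 : 0 < C := by omega
        rw [Int.sign_eq_neg_one_of_neg h4, Int.sign_eq_one_of_pos h5]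
        ring
  rw [finsum_eq_sum_of_support_subset _ hs, Finset.sum_image (by
    intro a _ b _ h
    exact Nat.cast_injective (R := ℤ) h)]
  have h0 : χ 0 = 0 := by
    have := H.zero 0 (by rw [Nat.coprime_zero_left]; omega)
    exact_mod_cast this
  have h2 : ∀ C ∈ range A, χ (C : ℤ) * (Int.sign ((A : ℤ) * r - (C : ℤ) * m) + Int.sign (C : ℤ)) =
      χ (C : ℤ) * Int.sign ((A : ℤ) * r - (C : ℤ) * m) + χ (C : ℤ) := by
    intro C _
    rcases Nat.eq_zero_or_pos C with h2 | h2
    · subst h2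
      push_cast
      rw [h0]
      ring
    · have h3 : (0 : ℤ) < C := by exact_mod_cast h2
      rw [Int.sign_eq_one_of_pos h3]
      ring
  rw [Finset.sum_congr rfl h2, Finset.sum_add_distrib, sum_range H, add_zero]

/-! ### the counting function -/

open Classical in
/-- the weighted number of forms changing sign between infinity and `x / M` -/
def Fw (A : ℕ) (w : ℤ × ℤ × ℤ → ℤ) (x M : ℤ) : ℤ := ∑ᶠ q : ℤ × ℤ × ℤ,
  if FmA A q ∧ 0 < q.1 ∧ q.1 * x ^ 2 + q.2.1 * x * M + q.2.2 * M ^ 2 < 0 then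
    (if (17 : ℤ) ∣ q.2.1 - A then 1 else -1) * w q else 0

/-- the relation with the counting function -/
theorem X_Fw (h17 : ¬ 17 ∣ A) (hw : ∀ q, w (-q) = w q) (x : ℤ) {m : ℤ} (hm : m ≠ 0) :
    X A w x m = 2 * Fw A w x m := by
  classical
  rw [X_W x hm]
  congr 1
  have h17z : ¬ (17 : ℤ) ∣ A := by exact_mod_cast h17
  -- the two parts
  obtain ⟨f1, hf1⟩ : ∃ f1 : ℤ × ℤ × ℤ → ℤ, ∀ q, f1 q =
      if inA A q ∧ 0 < q.1 ∧ ev q x m < 0 then w q else 0 := ⟨_, fun _ => rfl⟩
  obtain ⟨f2, hf2⟩ : ∃ f2 : ℤ × ℤ × ℤ → ℤ, ∀ q, f2 q =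
      if inA A (-q) ∧ 0 < q.1 ∧ ev q x m < 0 then -w q else 0 := ⟨_, fun _ => rfl⟩
  have hneg : ∀ q : ℤ × ℤ × ℤ, (inA A (-q) → q.2.1 ^ 2 - 4 * q.1 * q.2.2 = (A : ℤ) ^ 2) := by
    intro q h
    have := h.1
    simp only [Prod.fst_neg, Prod.snd_neg] at this
    linear_combination this
  have fin1 : (Function.support f1).Finite := by
    refine (fin_forms A x hm).subset ?_
    intro q hq
    rw [Function.mem_support, hf1, ne_eq, ite_eq_right_iff, Classical.not_imp] at hq
    exact ⟨hq.1.1.1, mul_neg_of_pos_of_neg hq.1.2.1 hq.1.2.2⟩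
  have fin2 : (Function.support f2).Finite := by
    refine (fin_forms A x hm).subset ?_
    intro q hq
    rw [Function.mem_support, hf2, ne_eq, ite_eq_right_iff, Classical.not_imp] at hq
    exact ⟨hneg q hq.1.1, mul_neg_of_pos_of_neg hq.1.2.1 hq.1.2.2⟩
  have fin2' : (Function.support fun q => f2 (-q)).Finite := by
    have := fin2.preimage
      ((neg_injective (G := ℤ × ℤ × ℤ)).injOn (s := (Neg.neg) ⁻¹' Function.support f2))
    exact this
  have h1 : ∀ q, Wq A w x m q = f1 q + f2 (-q) := by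
    intro q
    unfold Wq
    rw [hf1, hf2, neg_neg, ev_neg, Prod.fst_neg, hw]
    by_cases h : inA A q ∧ q.1 * ev q x m < 0
    · obtain ⟨h1, h2⟩ := h
      rw [if_pos ⟨h1, h2⟩]
      have h3 : q.1 ≠ 0 := by rintro h0; rw [h0, zero_mul] at h2; exact lt_irrefl _ h2
      rcases lt_or_gt_of_ne h3 with h4 | h4
      · have h5 : 0 < ev q x m := by
          by_contra h6
          push Not at h6
          exact absurd h2 (not_lt.2 (mul_nonneg_of_nonpos_of_nonpos h4.le h6))
        rw [if_neg (fun h => by linarith [h.2.1]), if_pos ⟨h1, by linarith, by linarith⟩,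
          Int.sign_eq_neg_one_of_neg h4]
        ring
      · have h5 : ev q x m < 0 := by
          by_contra h6
          push Not at h6
          exact absurd h2 (not_lt.2 (mul_nonneg h4.le h6))
        rw [if_pos ⟨h1, h4, h5⟩, if_neg (fun h => by linarith [h.2.1]), Int.sign_eq_one_of_pos h4]
        ring
    · rw [if_neg h, if_neg, if_neg, add_zero]
      · rintro ⟨k1, k2, k3⟩
        exact h ⟨k1, mul_neg_of_neg_of_pos (by linarith) (by linarith)⟩
      · rintro ⟨k1, k2, k3⟩
        exact h ⟨k1, mul_neg_of_pos_of_neg k2 k3⟩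
  have h2 : ∀ q : ℤ × ℤ × ℤ, (if FmA A q ∧ 0 < q.1 ∧
      q.1 * x ^ 2 + q.2.1 * x * m + q.2.2 * m ^ 2 < 0 then
      (if (17 : ℤ) ∣ q.2.1 - A then 1 else -1) * w q else 0) = f1 q + f2 q := by
    intro q
    rw [hf1, hf2]
    have he : ev q x m = q.1 * x ^ 2 + q.2.1 * x * m + q.2.2 * m ^ 2 := rfl
    rw [← he]
    by_cases hs : 0 < q.1 ∧ ev q x m < 0
    · by_cases h3 : inA A q
      · have h4 : ¬ inA A (-q) := by
          rintro ⟨-, -, h5⟩
          have h6 := h3.2.2
          rw [Prod.snd_neg, Prod.fst_neg] at h5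
          apply h17z
          omega
        rw [if_pos ⟨⟨h3.1, h3.2.1⟩, hs⟩, if_pos h3.2.2, if_pos ⟨h3, hs⟩, if_neg (fun h => h4 h.1)]
        ring
      · by_cases h4 : inA A (-q)
        · have h5 : FmA A q := by
            refine ⟨hneg q h4, ?_⟩
            have := h4.2.1
            rw [Prod.fst_neg, dvd_neg] at this
            exact this
          have h6 : ¬ (17 : ℤ) ∣ q.2.1 - A := fun h => h3 ⟨h5.1, h5.2, h⟩
          rw [if_pos ⟨h5, hs⟩, if_neg h6, if_neg (fun h => h3 h.1), if_pos ⟨h4, hs⟩]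
          ring
        · have h5 : ¬ FmA A q := by
            rintro ⟨k1, k2⟩
            have k3 : (17 : ℤ) ∣ (q.2.1 - A) * (q.2.1 + A) := by
              obtain ⟨t, ht⟩ := k2
              exact ⟨4 * t * q.2.2, by rw [ht] at k1; linear_combination k1⟩
            rcases (Int.prime_iff_natAbs_prime.2 (by norm_num) : Prime (17 : ℤ)).dvd_or_dvd k3
              with k4 | k4
            · exact h3 ⟨k1, k2, k4⟩
            · refine h4 ⟨?_, ?_, ?_⟩
              · simp only [Prod.fst_neg, Prod.snd_neg]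
                linear_combination k1
              · rw [Prod.fst_neg, dvd_neg]
                exact k2
              · rw [Prod.snd_neg, Prod.fst_neg]
                omega
          rw [if_neg (fun h => h5 h.1), if_neg (fun h => h3 h.1), if_neg (fun h => h4 h.1),
            add_zero]
    · rw [if_neg (fun h => hs h.2), if_neg (fun h => hs h.2), if_neg (fun h => hs h.2), add_zero]
  unfold Fw
  rw [finsum_congr h1, finsum_congr h2, finsum_add_distrib fin1 fin2', finsum_add_distrib fin1 fin2]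
  congr 1
  exact finsum_comp_equiv (Equiv.neg (ℤ × ℤ × ℤ)) (f := f2)

/-! ### the symbol of the even discriminants -/

theorem bdE_eq (hA : CpE A) (x : ℤ) {m : ℤ} (hm : 0 < m) : bdE A x m = E (chP A) A x m :=
  (E_chi (chrP_E hA) x hm).symm

theorem X_FgE (hA : CpE A) (x : ℤ) {m : ℤ} (hm : m ≠ 0) : X A (gnE A) x m = 2 * FgE A x m :=
  X_Fw (cop17E hA) (gnE_neg' (ev_of hA)) x hm

/-- the symbol in terms of the homomorphism -/
theorem GgE_eq (hA : CpE A) (b c : ℤ) {d : ℤ} (hd : 0 < d) :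
    GgE A b c d = HH A (gnE A) b c d := by
  have hpar := parity_gnE (ev_of hA)
  have hX0 := X_neg (Or.inl rfl) hpar 0 1
  rw [neg_zero] at hX0
  have hneg := E_neg (M := A) (w := chP A) (Or.inl rfl)
    (fun C => by
      rw [one_mul]
      exact chi_neg (chrP_E hA) C) c d
  unfold HH GgE
  rw [E'_pos hd, E'_pos hd, wi_gnE (ev_of hA), wo_gnE hA, hneg, ← bdE_eq hA b hd, ← bdE_eq hA c hd,
    X_FgE hA b hd.ne']
  linarith

/-- **SYMGE** -/
theorem t_SYMGE : N969.P17G.S_SYMGE := by
  intro A hA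
  have W := wt_gnE hA
  have P := parity_gnE (ev_of hA)
  refine ⟨?_, ?_, ?_, ?_⟩
  · intro a b c d a' b' c' d' h h' hd hd' hD
    rw [GgE_eq hA _ _ hD, GgE_eq hA _ _ hd, GgE_eq hA _ _ hd']
    exact HH_hom W h h'
  · intro b c d hd
    rw [GgE_eq hA _ _ hd, GgE_eq hA _ _ hd]
    exact HH_odd W P b c d
  · rw [GgE_eq hA _ _ one_pos]
    refine HH_T W ?_
    rw [wi_gnE (ev_of hA)]
    exact mean_chi (chrP_E hA)
  · rw [GgE_eq hA _ _ one_pos]
    refine HH_V W ?_
    rw [wo_gnE hA]
    exact mean_chi (chrP_E hA)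

/-- the comparison with the symbol of discriminant `4` -/
theorem GgE_prop (hA : CpE A) {a b c d : ℤ} (hdet : a * d - 17 * (b * c) = 1) (hd : 0 < d) :
    2 * GgE A b c d = GgE A 1 1 3 * N972.P17.Gs b c d := by
  have W := wt_gnE hA
  have P := parity_gnE (ev_of hA)
  have hom : N975.S17.OddHom (fun _ b c d : ℤ =>
      2 * HH A (gnE A) b c d - GgE A 1 1 3 * N975.S17.GG b c d) :=
    { hom := by
        intro a b c d a' b' c' d' h h'
        rw [HH_hom W h h', N975.S17.GG_hom h h']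
        ring
      neg := by
        intro a b c d h
        rw [N975.PG.HH_neg (N975.S17.d_ne h), N975.S17.GG_neg_neg (N975.S17.d_ne h)]
      odd := by
        intro a b c d h
        rw [HH_odd W P, N975.S17.GG_neg (N975.S17.d_ne h)]
        ring
      hT := by
        rw [HH_T W (by rw [wi_gnE (ev_of hA)]; exact mean_chi (chrP_E hA)), N975.S17.GG_T]
        ring
      hV := by
        rw [HH_V W (by rw [wo_gnE hA]; exact mean_chi (chrP_E hA)), N975.S17.GG_V]
        ring
      h3 := by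
        rw [N975.S17.GG_3, GgE_eq hA _ _ (by norm_num)]
        ring }
  have h2 := hom.zero d.natAbs a b c d hdet rfl
  have h3 : 2 * HH A (gnE A) b c d = GgE A 1 1 3 * N975.S17.GG b c d := by linarith
  rw [← GgE_eq hA _ _ hd, N975.S17.GG_pos hd] at h3
  exact h3

/-- for odd discriminants nothing new -/
theorem t_EQG : N969.P17G.S_EQG := by
  intro A hA h1
  have hodd : ¬ 2 ∣ A := by have := hA.2.1; omega
  have he : A.primeFactors.erase 2 = A.primeFactors := by
    refine Finset.erase_eq_of_notMem fun h => hodd (Nat.dvd_of_mem_primeFactors h)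
  constructor
  · intro x M
    have : gnE A = N969.P17G.gn A := by
      funext q
      unfold gnE N969.P17G.gn
      rw [if_neg hodd, one_mul, he]
    unfold FgE Fg
    rw [this]
  · intro x M
    have : ∀ u, chP A u = jacobiSym u A := by
      intro u
      unfold chP
      rw [if_neg hodd, one_mul, he, jac_prod u hA.1]
    unfold bdE bd
    simp only [this]

/-! ### nonvanishing -/

variable {f : CuspForm (Gamma0 17 : Subgroup (GL (Fin 2) ℝ)) 2}

theorem GgE_val (hA : CpE A) : X A (gnE A) 1 3 - 2 * bdc A (chP A) = GgE A 1 1 3 := by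
  rw [X_FgE hA 1 (by norm_num)]
  unfold GgE bdE bdc
  ring

/-- the character sum of the even symbol, even positive discriminants -/
theorem sum_reE {a : ℕ → ℤ} (h : Eigen f a) (hA : CpE A) :
    ∑ u ∈ un A, (chP A u : ℝ) * (II f ((u : ℚ) / A)).re =
      ((II f (1 / 3)).re - (II f 0).re) * ((GgE A 1 1 3 : ℤ) : ℝ) := by
  have h2 := sum_even (chrP_E hA) (gw_gnE hA) (wt_gnE hA) (parity_gnE (ev_of hA)) (symbE_re h)
  rw [GgE_val hA] at h2
  exact h2

/-- **nonvanishing, even positive discriminants** -/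
theorem ne_posE (h : Eigen f (fun p => ap E17 p)) (hA : CpE A) (hG : GgE A 1 1 3 ≠ 0) :
    ∃ F : ℂ → ℂ, Differentiable ℂ F ∧
      (∀ s : ℂ, (3 : ℝ) / 2 < s.re →
        HasProd (fun p : {p : ℕ // p.Prime ∧
            ¬ ((p : ℤ) ∣ 2 * (4 * (-91 * ((A / 4 : ℕ) : ℤ) ^ 2) ^ 3 +
              27 * (-330 * ((A / 4 : ℕ) : ℤ) ^ 3) ^ 2))} =>
          Pool.Agent.Y687.fac (-91 * ((A / 4 : ℕ) : ℤ) ^ 2) (-330 * ((A / 4 : ℕ) : ℤ) ^ 3) s p)
          (F s)) ∧
      F 1 ≠ 0 := by
  refine neP_real h (-91) (-330) disc17 bad17 (fun _ => good17) (ev_of hA) (Or.inl ?_)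
  have h2 := sum_reE h hA
  have h3 : ∀ u : ℕ, (ChP.chE A (u : ℤ) : ℝ) = (chP A (u : ℤ) : ℝ) := fun u => by
    rw [chP_eq (ev_of hA)]
  simp only [h3]
  rw [h2]
  refine mul_ne_zero (re_ne h ?_) (by exact_mod_cast hG)
  rw [ap17_2]
  norm_num

/-- the rank form of the conjecture, even positive discriminants -/
theorem bsd_posE (h : Eigen f (fun p => ap E17 p)) (hA : CpE A) (hG : GgE A 1 1 3 ≠ 0)
    (hfin : FinPts ((A / 4 : ℕ) : ℤ)) :
    RankBSD (-91 * ((A / 4 : ℕ) : ℤ) ^ 2) (-330 * ((A / 4 : ℕ) : ℤ) ^ 3) := by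
  obtain ⟨F, hF, hFp, hF1⟩ := ne_posE h hA hG
  exact rankBSD hF hFp hF1 hfin

end

end Pool.Agent.N974.PG
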