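import Pool.Agent.N974.PG.Kap
import Pool.Agent.N974.Gen.ChP
import Pool.Agent.N969.P17G.Defs2

/-!
# The genus weight of the positive even discriminants
-/

set_option autoImplicit false

open Finset

namespace Pool.Agent.N974.PG

open Pool.Agent.N975.PG (gp gp_act gp_neg jac_zero jac_congr inF Wt Parity wi wo Mean E e E_mod
  X X_neg HH refl E'_pos E_neg wi_neg inF_refl HH_hom HH_odd HH_T HH_V)
open Pool.Agent.N975.Sym (ev act act_inv)
open Pool.Agent.N969.P15 (un)
open Pool.Agent.N974.Gen.ChP (Ev chE ev_mod chE_mul chE_mod chE_zero chE_pm chE_one c2_mul c2_one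
  c2_pm c2_even ev_odd ev_pos exists_neg chE_prime)
open Pool.Agent.N969.P17G (CpE chP gnE FgE bdE GgE FmA gen)

noncomputable section

/-! ### the characters -/

theorem c2_conv {A : ℕ} (hA : A % 16 = 12 ∨ A % 16 = 8) (u : ℤ) :
    N969.P15.c2 (3 * A) u = Gen.ChP.c2 A u := by
  unfold N969.P15.c2 Gen.ChP.c2
  rcases hA with hA | hA
  · rw [if_pos (by omega : 3 * A % 16 = 4), if_pos hA]
  · rw [if_neg (by omega : ¬ 3 * A % 16 = 4), if_neg (by omega : ¬ A % 16 = 12)]
    by_cases h : A % 32 = 8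
    · rw [if_neg (by omega : ¬ 3 * A % 32 = 8), if_pos h]
    · rw [if_pos (by omega : 3 * A % 32 = 8), if_neg h]

theorem ev_of {A : ℕ} (h : CpE A) : Ev A := by
  obtain ⟨M, rfl, h1, h2, -⟩ := h
  exact ⟨M, rfl, h1, h2.symm⟩

theorem two_dvd {A : ℕ} (h : Ev A) : 2 ∣ A := by
  have := ev_mod h
  omega

theorem chP_eq {A : ℕ} (h : Ev A) (u : ℤ) : chP A u = chE A u := by
  unfold chP chE
  rw [if_pos (two_dvd h), c2_conv (ev_mod h)]

theorem c2_mod8 {A : ℕ} {u v : ℤ} (h : (8 : ℤ) ∣ u - v) : Gen.ChP.c2 A u = Gen.ChP.c2 A v := by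
  unfold Gen.ChP.c2
  have e1 : u % 8 = v % 8 := by omega
  have e2 : u % 2 = v % 2 := by omega
  have e3 : u % 4 = v % 4 := by omega
  rw [e1, e2, e3]

theorem c2_mod4 {A : ℕ} (hA : A % 16 = 12) {u v : ℤ} (h : (4 : ℤ) ∣ u - v) :
    Gen.ChP.c2 A u = Gen.ChP.c2 A v := by
  unfold Gen.ChP.c2
  have e2 : u % 2 = v % 2 := by omega
  have e3 : u % 4 = v % 4 := by omega
  rw [e2, e3, if_pos hA, if_pos hA]

theorem chE_neg_one {A : ℕ} (h : Ev A) : chE A (-1) = 1 := by
  obtain ⟨k, hsq, hk, hcase, hpf⟩ := ev_odd h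
  have hko : Odd k := Nat.odd_iff.2 hk
  unfold chE
  rw [hpf, Pool.Agent.N975.ChE.jac_sqfree _ hsq, jacobiSym.at_neg_one hko]
  unfold Gen.ChP.c2
  rw [if_neg (by norm_num)]
  rcases hcase with ⟨rfl, h1⟩ | rfl
  · rw [if_pos (by omega), if_neg (by norm_num), ZMod.χ₄_nat_three_mod_four h1]
    norm_num
  · rw [if_neg (by omega)]
    rcases (by omega : k % 4 = 1 ∨ k % 4 = 3) with h1 | h1
    · rw [if_pos (by omega), if_pos (by norm_num), ZMod.χ₄_nat_one_mod_four h1]
      norm_num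
    · rw [if_neg (by omega), if_neg (by norm_num), ZMod.χ₄_nat_three_mod_four h1]
      norm_num

/-- the sum of a nontrivial character over a period vanishes -/
theorem sum_zero {A : ℕ} (hA : 0 < A) {χ : ℤ → ℤ} (per : ∀ x y : ℤ, (A : ℤ) ∣ x - y → χ x = χ y)
    (mul : ∀ x y : ℤ, χ (x * y) = χ x * χ y) {t : ℕ} (ht : Nat.Coprime t A) (h1 : χ t = -1) :
    ∑ C ∈ range A, χ C = 0 := by
  have hsum : ∑ C ∈ range A, χ C = χ t * ∑ C ∈ range A, χ C := by
    rw [Finset.mul_sum]
    symm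
    refine Finset.sum_bij (fun j _ => t * j % A) ?_ ?_ ?_ ?_
    · intro j _
      exact Finset.mem_range.2 (Nat.mod_lt _ hA)
    · intro i hi j hj h
      rw [Finset.mem_range] at hi hj
      have h2 : t * i ≡ t * j [MOD A] := h
      have h3 := Nat.ModEq.cancel_left_of_coprime (by rw [Nat.gcd_comm]; exact ht) h2
      rwa [Nat.ModEq, Nat.mod_eq_of_lt hi, Nat.mod_eq_of_lt hj] at h3
    · intro r hr
      rw [Finset.mem_range] at hr
      obtain ⟨j, hj⟩ := Nat.exists_mul_mod_eq_of_coprime r ht hA.ne'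
      refine ⟨j % A, Finset.mem_range.2 (Nat.mod_lt _ hA), ?_⟩
      rw [Nat.mul_mod, Nat.mod_mod, ← Nat.mul_mod, hj.2, Nat.mod_eq_of_lt hr]
    · intro j _
      rw [← mul]
      refine per _ _ ?_
      push_cast
      exact (Int.ModEq.dvd (Int.mod_modEq _ _))
  rw [h1] at hsum
  linarith

theorem exists_t {A : ℕ} (h : Ev A) : ∃ t : ℕ, Nat.Coprime t A ∧ chE A t = -1 := by
  obtain ⟨t, -, ht⟩ := exists_neg h Nat.prime_two (two_dvd h)
  refine ⟨t, ?_, ht⟩
  by_contra h1
  rw [chE_zero (ev_mod h) h1] at ht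
  norm_num at ht

theorem chrP_E {A : ℕ} (hA : CpE A) : ChrP A (chP A) := by
  have h := ev_of hA
  have e : chP A = chE A := funext fun u => chP_eq h u
  rw [e]
  have hm := ev_mod h
  refine ⟨by omega, fun _ _ => chE_mod hm, chE_mul A, fun _ => chE_zero hm, fun _ => chE_pm hm,
    chE_one A, chE_neg_one h, ?_, ?_⟩
  · have h17 := chE_prime h (p := 17) (by norm_num) (by norm_num)
    push_cast at h17
    rw [h17]
    obtain ⟨M, rfl, -, -, h3⟩ := hA
    have h4 : ((4 * M : ℕ) : ℤ) / 4 = M := by push_cast; omega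
    rw [h4]
    exact h3
  · obtain ⟨t, ht1, ht2⟩ := exists_t h
    rw [← sum_zero (ev_pos h) (fun _ _ => chE_mod hm) (chE_mul A) ht1 ht2]
    refine Finset.sum_subset (Finset.filter_subset _ _) fun j hj hj2 => ?_
    exact chE_zero hm fun h => hj2 (Finset.mem_filter.2 ⟨hj, h⟩)

theorem cop17E {A : ℕ} (hA : CpE A) : ¬ 17 ∣ A := by
  intro h
  have h1 := (chrP_E hA).v17
  have h2 := (chrP_E hA).zero 17 (by
    rw [Nat.Prime.coprime_iff_not_dvd (by norm_num)]
    exact fun h3 => h3 h)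
  push_cast at h2
  rw [h2] at h1
  norm_num at h1

/-! ### the genus character at `2` -/

/-- the genus character at `2` -/
def g2 (A : ℕ) (q : ℤ × ℤ × ℤ) : ℤ :=
  if (2 : ℤ) ∣ q.1 then Gen.ChP.c2 A q.2.2 else Gen.ChP.c2 A q.1

theorem gnE_eq {A : ℕ} (h : Ev A) (q : ℤ × ℤ × ℤ) :
    gnE A q = g2 A q * ∏ p ∈ A.primeFactors.erase 2, gp p q := by
  unfold gnE g2
  rw [if_pos (two_dvd h), c2_conv (ev_mod h), c2_conv (ev_mod h)]
  rfl

/-- the middle coefficient is even -/
theorem mid_even {A : ℕ} (h : Ev A) {q : ℤ × ℤ × ℤ}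
    (hd : q.2.1 ^ 2 - 4 * q.1 * q.2.2 = (A : ℤ) ^ 2) : ∃ b, q.2.1 = 2 * b ∧
      ∃ k, b ^ 2 - q.1 * q.2.2 = 4 * k ^ 2 ∧ (A % 16 = 8 → (2 : ℤ) ∣ k) := by
  have hm := ev_mod h
  obtain ⟨M, hM⟩ : ∃ M, A = 4 * M := ⟨A / 4, by omega⟩
  have h2 : (2 : ℤ) ∣ q.2.1 := by
    have h3 : (2 : ℤ) ∣ q.2.1 ^ 2 := ⟨2 * (q.1 * q.2.2) + 8 * (M : ℤ) ^ 2, by
      rw [hM] at hd
      push_cast at hd
      linear_combination hd⟩
    exact Int.prime_two.dvd_of_dvd_pow h3
  obtain ⟨b, hb⟩ := h2
  refine ⟨b, hb, (M : ℤ), ?_, ?_⟩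
  · rw [hb, hM] at hd
    push_cast at hd
    have : 4 * (b ^ 2 - q.1 * q.2.2) = 4 * (4 * (M : ℤ) ^ 2) := by linear_combination hd
    linarith
  · intro h8
    omega

theorem sq_mod8 {x : ℤ} (h : x % 2 = 1) : (8 : ℤ) ∣ x ^ 2 - 1 := by
  obtain ⟨y, hy⟩ : ∃ y, x = 2 * y + 1 := ⟨x / 2, by omega⟩
  obtain ⟨z, hz⟩ : (2 : ℤ) ∣ y * (y + 1) := Int.even_mul_succ_self y |>.two_dvd
  refine ⟨z, ?_⟩
  rw [hy]
  linear_combination 4 * hz

/-- the key computation -/
theorem c2_rel {A : ℕ} (h : Ev A) {al v X k y : ℤ} (e : al * v = X ^ 2 - 4 * k ^ 2 * y ^ 2)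
    (hk : A % 16 = 8 → (2 : ℤ) ∣ k) (ho : (al * v) % 2 = 1) :
    Gen.ChP.c2 A al = Gen.ChP.c2 A v := by
  have hX : X % 2 = 1 := by
    rcases Int.emod_two_eq_zero_or_one X with h1 | h1
    · exfalso
      obtain ⟨t, ht⟩ : ∃ t, X = 2 * t := ⟨X / 2, by omega⟩
      have : al * v = 2 * (2 * t ^ 2 - 2 * k ^ 2 * y ^ 2) := by rw [e, ht]; ring
      omega
    · exact h1
  have h1 : Gen.ChP.c2 A (al * v) = 1 := by
    rw [← c2_one A]
    obtain ⟨s, hs⟩ := sq_mod8 hX
    rcases ev_mod h with h2 | h2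
    · refine c2_mod4 h2 ⟨2 * s - k ^ 2 * y ^ 2, ?_⟩
      rw [e]
      linear_combination hs
    · obtain ⟨j, hj⟩ := hk h2
      refine c2_mod8 ⟨s - 2 * j ^ 2 * y ^ 2, ?_⟩
      rw [e, hj]
      linear_combination hs
  rw [c2_mul] at h1
  have ha : al % 2 = 1 := by
    rcases Int.emod_two_eq_zero_or_one al with h3 | h3
    · rw [Int.mul_emod, h3] at ho
      norm_num at ho
    · exact h3
  have hv : v % 2 = 1 := by
    rcases Int.emod_two_eq_zero_or_one v with h3 | h3
    · rw [Int.mul_emod, h3] at ho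
      norm_num at ho
    · exact h3
  rcases c2_pm A ha with h3 | h3 <;> rcases c2_pm A hv with h4 | h4 <;> rw [h3, h4] at h1 ⊢ <;>
    omega

/-- an odd value gives the symbol -/
theorem g2_val {A : ℕ} (h : Ev A) {q : ℤ × ℤ × ℤ}
    (hd : q.2.1 ^ 2 - 4 * q.1 * q.2.2 = (A : ℤ) ^ 2) (x y : ℤ) (ho : ev q x y % 2 = 1) :
    Gen.ChP.c2 A (ev q x y) = g2 A q := by
  obtain ⟨b, hb, k, hk, h8⟩ := mid_even h hd
  obtain ⟨al, be, ga⟩ := q
  simp only at hb hk
  have hev : ev (al, be, ga) x y = al * x ^ 2 + 2 * b * x * y + ga * y ^ 2 := by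
    unfold ev
    simp only
    rw [hb]
  unfold g2
  simp only
  split_ifs with h2
  · -- `al` even
    have hga : ga % 2 = 1 := by
      rcases Int.emod_two_eq_zero_or_one ga with h3 | h3
      · exfalso
        obtain ⟨t, ht⟩ := h2
        obtain ⟨s, hs⟩ : ∃ s, ga = 2 * s := ⟨ga / 2, by omega⟩
        rw [hev, ht, hs] at ho
        have : 2 * t * x ^ 2 + 2 * b * x * y + 2 * s * y ^ 2 =
          2 * (t * x ^ 2 + b * x * y + s * y ^ 2) := by ring
        omega
      · exact h3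
    refine (c2_rel h (al := ga) (v := ev (al, be, ga) x y) (X := ga * y + b * x) (k := k) (y := x)
      ?_ h8 ?_).symm
    · rw [hev]
      linear_combination x ^ 2 * -hk
    · rw [Int.mul_emod, hga, ho]
      norm_num
  · have hal : al % 2 = 1 := by omega
    refine (c2_rel h (al := al) (v := ev (al, be, ga) x y) (X := al * x + b * y) (k := k) (y := y)
      ?_ h8 ?_).symm
    · rw [hev]
      linear_combination y ^ 2 * -hk
    · rw [Int.mul_emod, hal, ho]
      norm_num

theorem g2_act {A : ℕ} (h : Ev A) {q : ℤ × ℤ × ℤ}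
    (hd : q.2.1 ^ 2 - 4 * q.1 * q.2.2 = (A : ℤ) ^ 2) {a b c d : ℤ} (hdet : a * d - b * c = 1) :
    g2 A (act a b c d q) = g2 A q := by
  have e1 : (act a b c d q).1 = ev q a c := by unfold act ev; ring
  have e2 : (act a b c d q).2.2 = ev q b d := by unfold act ev; ring
  have hd' : (act a b c d q).2.1 ^ 2 - 4 * (act a b c d q).1 * (act a b c d q).2.2 =
      (A : ℤ) ^ 2 := by
    rw [← hd]
    unfold act
    simp only
    linear_combination ((q.2.1 ^ 2 - 4 * q.1 * q.2.2) * (a * d - b * c + 1)) * hdet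
  by_cases h1 : ev q a c % 2 = 1
  · rw [← g2_val h hd a c h1]
    unfold g2
    rw [e1, if_neg (by omega)]
  · by_cases h2 : ev q b d % 2 = 1
    · rw [← g2_val h hd b d h2]
      unfold g2
      rw [e1, if_pos (by omega), e2]
    · -- the form is even
      obtain ⟨t, ht, -⟩ := mid_even h hd'
      have h4 : q = act d (-b) (-c) a (act a b c d q) := (act_inv hdet q).symm
      have h5 : (2 : ℤ) ∣ q.1 := by
        rw [h4]
        show (2 : ℤ) ∣ (act a b c d q).1 * d ^ 2 + (act a b c d q).2.1 * d * (-c) +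
          (act a b c d q).2.2 * (-c) ^ 2
        have k1 : (2 : ℤ) ∣ (act a b c d q).1 := by rw [e1]; omega
        have k2 : (2 : ℤ) ∣ (act a b c d q).2.2 := by rw [e2]; omega
        have k3 : (2 : ℤ) ∣ (act a b c d q).2.1 := ⟨t, ht⟩
        exact dvd_add (dvd_add (dvd_mul_of_dvd_left k1 _)
          (dvd_mul_of_dvd_left (dvd_mul_of_dvd_left k3 _) _)) (dvd_mul_of_dvd_left k2 _)
      have h6 : (2 : ℤ) ∣ q.2.2 := by
        rw [h4]
        show (2 : ℤ) ∣ (act a b c d q).1 * (-b) ^ 2 + (act a b c d q).2.1 * (-b) * a +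
          (act a b c d q).2.2 * a ^ 2
        have k1 : (2 : ℤ) ∣ (act a b c d q).1 := by rw [e1]; omega
        have k2 : (2 : ℤ) ∣ (act a b c d q).2.2 := by rw [e2]; omega
        have k3 : (2 : ℤ) ∣ (act a b c d q).2.1 := ⟨t, ht⟩
        exact dvd_add (dvd_add (dvd_mul_of_dvd_left k1 _)
          (dvd_mul_of_dvd_left (dvd_mul_of_dvd_left k3 _) _)) (dvd_mul_of_dvd_left k2 _)
      unfold g2
      rw [if_pos h5, e1, if_pos (by omega), e2, c2_even A (by omega), c2_even A (by omega)]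

theorem g2_neg (A : ℕ) (a b c b' : ℤ) :
    g2 A (-a, b', -c) = Gen.ChP.c2 A (-1) * g2 A (a, b, c) := by
  unfold g2
  simp only [dvd_neg]
  split_ifs
  · rw [← c2_mul]
    congr 1
    ring
  · rw [← c2_mul]
    congr 1
    ring

/-! ### the weight -/

theorem gnE_act {A : ℕ} (h : Ev A) {q : ℤ × ℤ × ℤ}
    (hd : q.2.1 ^ 2 - 4 * q.1 * q.2.2 = (A : ℤ) ^ 2) {a b c d : ℤ} (hdet : a * d - b * c = 1) :
    gnE A (act a b c d q) = gnE A q := by
  rw [gnE_eq h, gnE_eq h, g2_act h hd hdet]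
  congr 1
  refine Finset.prod_congr rfl fun p hp => ?_
  obtain ⟨hp2, hp⟩ := Finset.mem_erase.1 hp
  refine gp_act (Nat.prime_of_mem_primeFactors hp) hp2 ?_ hdet
  rw [hd]
  have : (p : ℤ) ∣ (A : ℤ) := by exact_mod_cast Nat.dvd_of_mem_primeFactors hp
  exact dvd_pow this two_ne_zero

theorem gnE_neg {A : ℕ} (h : Ev A) (a b c b' : ℤ) : gnE A (-a, b', -c) = gnE A (a, b, c) := by
  rw [gnE_eq h, gnE_eq h, g2_neg A a b c b']
  have h1 := chE_neg_one h
  unfold chE at h1
  have h2 : ∏ p ∈ A.primeFactors.erase 2, gp p (-a, b', -c) =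
      (∏ p ∈ A.primeFactors.erase 2, jacobiSym (-1) p) *
        ∏ p ∈ A.primeFactors.erase 2, gp p (a, b, c) := by
    rw [← Finset.prod_mul_distrib]
    exact Finset.prod_congr rfl fun p _ => gp_neg p a b c b'
  rw [h2]
  linear_combination (g2 A (a, b, c) * ∏ p ∈ A.primeFactors.erase 2, gp p (a, b, c)) * h1

theorem gnE_neg' {A : ℕ} (h : Ev A) (q : ℤ × ℤ × ℤ) : gnE A (-q) = gnE A q := by
  obtain ⟨a, b, c⟩ := q
  exact gnE_neg h a b c (-b)

theorem gnE_inf {A : ℕ} (h : Ev A) (b C : ℤ) : gnE A (0, b, C) = chP A C := by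
  rw [gnE_eq h, chP_eq h]
  unfold g2 chE
  have h1 : ∏ p ∈ A.primeFactors.erase 2, gp p (0, b, C) =
      ∏ p ∈ A.primeFactors.erase 2, jacobiSym C p := by
    refine Finset.prod_congr rfl fun p _ => ?_
    unfold gp
    rw [if_pos (dvd_zero _)]
  rw [if_pos (dvd_zero _), h1]

theorem gnE_zero {A : ℕ} (h : Ev A) (a b : ℤ) : gnE A (a, b, 0) = chP A a := by
  rw [gnE_eq h, chP_eq h]
  unfold g2 chE
  congr 1
  · simp only
    split_ifs with h2
    · rw [c2_even A (by norm_num), c2_even A (by omega)]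
    · rfl
  · refine Finset.prod_congr rfl fun p hp => ?_
    obtain ⟨-, hp⟩ := Finset.mem_erase.1 hp
    have hpp := Nat.prime_of_mem_primeFactors hp
    unfold gp
    by_cases h : (p : ℤ) ∣ a
    · rw [if_pos h, jac_zero hpp h, jac_zero hpp (dvd_zero _)]
    · rw [if_neg h]

theorem wt_gnE {A : ℕ} (hA : CpE A) : Wt A (gnE A) where
  pos := by exact_mod_cast ev_pos (ev_of hA)
  cop := by
    intro h
    exact cop17E hA (by exact_mod_cast h)
  inv := fun h _ _ hq => gnE_act (ev_of hA) hq.1 h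

theorem parity_gnE {A : ℕ} (h : Ev A) : Parity A (gnE A) 1 := by
  rintro ⟨a, b, c⟩ _
  rw [one_mul]
  exact gnE_neg h a b c b

theorem wi_gnE {A : ℕ} (h : Ev A) : wi A (gnE A) = chP A := funext fun C => gnE_inf h _ C

theorem wo_gnE {A : ℕ} (hA : CpE A) : wo A (gnE A) = chP A := by
  funext C
  unfold wo
  rw [gnE_zero (ev_of hA), (chrP_E hA).mul, (chrP_E hA).v17, one_mul]

/-- the genus weight and its character -/
theorem gw_gnE {A : ℕ} (hA : CpE A) : Gw A (gnE A) (chP A) where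
  pos := ev_pos (ev_of hA)
  cop := cop17E hA
  van := by
    intro q l hl hlA h1 h2
    have h := ev_of hA
    rw [gnE_eq h]
    by_cases hl2 : l = 2
    · subst hl2
      have : g2 A q = 0 := by
        unfold g2
        rw [if_pos (by exact_mod_cast h1)]
        refine c2_even A ?_
        have : (2 : ℤ) ∣ q.2.2 := by exact_mod_cast h2
        omega
      rw [this, zero_mul]
    · have hmem : l ∈ A.primeFactors.erase 2 :=
        Finset.mem_erase.2 ⟨hl2, Nat.mem_primeFactors.2 ⟨hl, hlA, (ev_pos h).ne'⟩⟩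
      have : ∏ p ∈ A.primeFactors.erase 2, gp p q = 0 := by
        refine Finset.prod_eq_zero hmem ?_
        unfold gp
        rw [if_pos h1, jac_zero hl h2]
      rw [this, mul_zero]
  val := by
    intro u hu g hg
    have h := ev_of hA
    obtain ⟨p, r, a, s⟩ := g
    obtain ⟨h1, -, -⟩ := hg
    simp only at h1
    rw [gnE_eq h, chP_eq h]
    unfold chE
    congr 1
    · -- the factor at `2`
      have hm := ev_mod h
      obtain ⟨M, hM⟩ : ∃ M, (A : ℤ) = 4 * M := ⟨(A / 4 : ℕ), by omega⟩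
      have hu2 : u % 2 = 1 := by
        rcases Int.emod_two_eq_zero_or_one u with h3 | h3
        · exfalso
          have h4 : (2 : ℤ) ∣ u := by omega
          have h5 : (2 : ℤ) ∣ (A : ℤ) := by omega
          exact Int.prime_two.not_isUnit (hu.isUnit_of_dvd' h4 h5)
        · exact h3
      have hc : ∀ x y : ℤ, x % 2 = 1 → (A : ℤ) ∣ y - x ^ 2 * -u →
          Gen.ChP.c2 A y = Gen.ChP.c2 A (-u) := by
        intro x y hx hy
        rw [Gen.ChP.c2_mod hm hy, pow_two, mul_assoc, c2_mul, c2_mul, ← mul_assoc]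
        rcases c2_pm A hx with h3 | h3 <;> rw [h3] <;> norm_num
      unfold g2 qf
      simp only
      split_ifs with hd
      · have ha : a % 2 = 0 := by
          rcases Int.emod_two_eq_zero_or_one a with h3 | h3
          · exact h3
          · exfalso
            rw [dvd_neg] at hd
            rcases Int.prime_two.dvd_or_dvd hd with h4 | h4
            · omega
            · have h5 : (a * u) % 2 = 1 := by rw [Int.mul_emod, h3, hu2]; norm_num
              have h6 : a * u + s * A = a * u + 4 * (s * M) := by rw [hM]; ring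
              omega
        have hp : p % 2 = 1 := by
          rcases Int.emod_two_eq_zero_or_one p with h3 | h3
          · exfalso
            obtain ⟨p', hp'⟩ : ∃ p', p = 2 * p' := ⟨p / 2, by omega⟩
            obtain ⟨a', ha'⟩ : ∃ a', a = 2 * a' := ⟨a / 2, by omega⟩
            have : 2 * (p' * s - r * a') = 1 := by rw [← h1, hp', ha']; ring
            omega
          · exact h3
        refine hc p _ hp ⟨-(p * r), by ring⟩
      · have ha : a % 2 = 1 := by
          rcases Int.emod_two_eq_zero_or_one a with h3 | h3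
          · exfalso
            apply hd
            rw [dvd_neg]
            exact (show (2 : ℤ) ∣ a by omega).mul_right _
          · exact h3
        refine hc a _ ha ⟨-(a * s), by ring⟩
    · -- the odd primes
      refine Finset.prod_congr rfl fun l hl => ?_
      obtain ⟨-, hl⟩ := Finset.mem_erase.1 hl
      have hlp := Nat.prime_of_mem_primeFactors hl
      have hlA : (l : ℤ) ∣ A := by exact_mod_cast Nat.dvd_of_mem_primeFactors hl
      have hP : Prime (l : ℤ) := Nat.prime_iff_prime_int.1 hlp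
      have hlu : ¬ (l : ℤ) ∣ u := by
        intro h
        exact hP.not_isUnit (hu.isUnit_of_dvd' h hlA)
      obtain ⟨A1, hA1⟩ := hlA
      have hsq : ∀ x : ℤ, ¬ (l : ℤ) ∣ x → jacobiSym (x ^ 2) l = 1 := by
        intro x hx
        rw [jacobiSym.pow_left]
        exact Pool.Agent.N975.PG.jac_sq hlp hx
      have hc : ∀ x y : ℤ, ¬ (l : ℤ) ∣ x → (l : ℤ) ∣ y - x ^ 2 * -u →
          jacobiSym y l = jacobiSym (-u) l := by
        intro x y hx hy
        rw [jac_congr hy, jacobiSym.mul_left, hsq x hx, one_mul]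
      unfold gp qf
      simp only
      split_ifs with hd
      · have ha : (l : ℤ) ∣ a := by
          rw [dvd_neg] at hd
          rcases hP.dvd_or_dvd hd with h2 | h2
          · exact h2
          · have h3 : (l : ℤ) ∣ a * u := by
              have : a * u = (a * u + s * A) - s * A := by ring
              rw [this]
              exact dvd_sub h2 (by rw [hA1]; exact ⟨s * A1, by ring⟩)
            exact (hP.dvd_or_dvd h3).resolve_right hlu
        have hp : ¬ (l : ℤ) ∣ p := by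
          intro h2
          apply hP.not_isUnit
          exact isUnit_of_dvd_one (h1 ▸ dvd_sub (h2.mul_right _) (ha.mul_left _))
        exact hc p _ hp ⟨-(p * r * A1), by rw [hA1]; ring⟩
      · have ha : ¬ (l : ℤ) ∣ a := fun h2 => hd (by
          rw [dvd_neg]
          exact h2.mul_right _)
        exact hc a _ ha ⟨-(a * s * A1), by rw [hA1]; ring⟩

end

end Pool.Agent.N974.PG
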