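import Pool.Agent.N974.PG.Kap
import Pool.Agent.N971.EX.Scale
import Pool.Agent.N809.M17.Mod17
import Pool.Agent.N975.LatRh

/-!
# The exact scale of the two symbols of level `17`
-/

set_option autoImplicit false

open Finset UpperHalfPlane MatrixGroups CongruenceSubgroup

namespace Pool.Agent.N974.PG

open Pool.Agent.N975.PG (gn U X E E' wi wo HH HH_hom HH_neg HH_even Wt Parity inF wt_gn parity_gn
  X_neg X_add E'_pos E_zero)
open Pool.Agent.N974.Gen
open Pool.Agent.N971.EX (scale mkL)
open Pool.Agent.N809.M17 (f17 X0 param17 tors0 eigen17)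
open Pool.Agent.N975.S17 (d_ne)

noncomputable section

/-! ### parity -/

/-- the boundary term is odd exactly at denominator `3` -/
theorem E3_par {x m : ℤ} (hm : 0 < m) (h : IsCoprime x m) :
    E w3 3 x m % 2 = if m = 3 then 1 else 0 := by
  rcases eq_or_lt_of_le (Int.add_one_le_of_lt hm) with h1 | h1
  · have hm1 : m = 1 := by omega
    subst hm1
    have h2 := E3_mod (m := 1) one_pos 0 x
    rw [zero_add, mul_one, E_zero] at h2
    rw [h2]
    norm_num
  · have hm2 : 1 < m := by omega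
    obtain ⟨y, hy⟩ : ∃ y : ℤ, y = x % m := ⟨_, rfl⟩
    have h2 : x = y + (x / m) * m := by
      rw [hy]; have := Int.emod_add_mul_ediv x m; linarith
    have h3 : IsCoprime y m := by
      have e : x = y + m * (x / m) := by rw [mul_comm m]; exact h2
      rw [e] at h
      exact IsCoprime.of_add_mul_left_left h
    have hy0 : 0 ≤ y := by rw [hy]; exact Int.emod_nonneg _ (by omega)
    have hy1 : y < m := by rw [hy]; exact Int.emod_lt_of_pos _ hm
    have hy2 : 0 < y := by
      rcases eq_or_lt_of_le hy0 with h4 | h4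
      · exfalso
        rw [← h4] at h3
        have h5 := isCoprime_zero_left.1 h3
        rcases Int.isUnit_iff.1 h5 with h6 | h6 <;> omega
      · exact h4
    have h4 : E w3 3 x m = Int.sign (3 * y - 2 * m) - Int.sign (3 * y - m) := by
      rw [h2, E3_mod hm, E3_val hy2 hy1]
    rw [h4]
    split_ifs with h5
    · subst h5
      have h6 : y = 1 ∨ y = 2 := by omega
      rcases h6 with rfl | rfl <;> rfl
    · have h6 : 3 * y - 2 * m ≠ 0 := by
        intro h7
        apply h5
        have h8 : m ∣ 3 * y := ⟨2, by linarith⟩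
        have h9 : m ∣ 3 := h3.symm.dvd_of_dvd_mul_right h8
        have h10 := Int.le_of_dvd (by norm_num) h9
        interval_cases m
        · omega
        · rfl
      have h7 : 3 * y - m ≠ 0 := by
        intro h7
        apply h5
        have h8 : m ∣ 3 * y := ⟨1, by linarith⟩
        have h9 : m ∣ 3 := h3.symm.dvd_of_dvd_mul_right h8
        have h10 := Int.le_of_dvd (by norm_num) h9
        interval_cases m
        · omega
        · rfl
      rcases lt_or_gt_of_ne h6 with h8 | h8 <;> rcases lt_or_gt_of_ne h7 with h9 | h9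
      · rw [Int.sign_eq_neg_one_of_neg h8, Int.sign_eq_neg_one_of_neg h9]; rfl
      · rw [Int.sign_eq_neg_one_of_neg h8, Int.sign_eq_one_of_pos h9]; rfl
      · rw [Int.sign_eq_one_of_pos h8, Int.sign_eq_neg_one_of_neg h9]; rfl
      · rw [Int.sign_eq_one_of_pos h8, Int.sign_eq_one_of_pos h9]; rfl

/-- the values of the even homomorphism of discriminant `9` are even -/
theorem HH3_two {a b c d : ℤ} (h : a * d - 17 * (b * c) = 1) :
    ∃ m : ℤ, HH ((3 : ℕ) : ℤ) (gn 3) b c d = 2 * m := by
  have key : ∀ {a b c d : ℤ}, a * d - 17 * (b * c) = 1 → 0 < d →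
      ∃ m : ℤ, HH ((3 : ℕ) : ℤ) (gn 3) b c d = 2 * m := by
    intro a b c d h hd
    have hb : IsCoprime b d := ⟨-(17 * c), a, by linear_combination h⟩
    have hc : IsCoprime (-c) d := ⟨17 * b, a, by linear_combination h⟩
    have p1 := E3_par hd hb
    have p2 := E3_par hd hc
    have e : HH ((3 : ℕ) : ℤ) (gn 3) b c d =
        2 * ∑ᶠ q, Wq 3 (gn 3) b d q - E w3 3 b d - E w3 3 (-c) d := by
      unfold HH
      have hwi : wi ((3 : ℕ) : ℤ) (gn 3) = w3 := wi_eq
      have hwo : wo ((3 : ℕ) : ℤ) (gn 3) = fun C => -w3 C := wo_eq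
      rw [X3_zero, hwi, hwo, E'_neg_w, E'_pos hd, E'_pos hd, X_W b hd.ne']
      push_cast
      ring
    refine ⟨HH ((3 : ℕ) : ℤ) (gn 3) b c d / 2, ?_⟩
    rw [e]
    rw [← p2] at p1
    omega
  rcases lt_or_gt_of_ne (d_ne h) with hd | hd
  · obtain ⟨m, hm⟩ := key (a := -a) (b := -b) (c := -c) (d := -d) (by linear_combination h)
      (by omega)
    refine ⟨m, ?_⟩
    rw [← hm, HH_neg (d_ne h)]
  · exact key h hd

/-! ### the real parts of the periods -/

variable {N : ℕ} [NeZero N] {f : CuspForm (Gamma0 N : Subgroup (GL (Fin 2) ℝ)) 2}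

/-- the real parts of the periods have no common factor, for a rhombic lattice -/
theorem scale_re {L : PeriodPair} {X : ℂ → ℂ} (h : Param f L X)
    (hcusp : ∀ r : ℚ, ¬ (N : ℤ) ∣ r.den → II f r ∉ L.lattice)
    {Op Om : ℝ} (hOp : Op ≠ 0) (hOm : Om ≠ 0)
    (hL : ∀ w : ℂ, w ∈ L.lattice ↔ ∃ a b : ℤ, 2 ∣ a - b ∧ w = a * Op + b * Om * Complex.I)
    (k : ℤ)
    (hk : ∀ (a b c d : ℤ), a * d - b * ((N : ℤ) * c) = 1 → ∀ p : ℂ,
      (∀ z : ℂ, 0 < z.im → F f ((a * z + b) / ((N : ℂ) * c * z + d)) = F f z + p) →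
      ∃ m : ℤ, p.re = m * (k * Op)) : k = 1 ∨ k = -1 := by
  -- the coordinates of a period
  have hper : ∀ (a b c d : ℤ), a * d - b * ((N : ℤ) * c) = 1 → ∀ p : ℂ,
      (∀ z : ℂ, 0 < z.im → F f ((a * z + b) / ((N : ℂ) * c * z + d)) = F f z + p) →
      ∃ x y m : ℤ, 2 ∣ x - y ∧ p = x * Op + y * Om * Complex.I ∧ x = m * k := by
    intro a b c d hdet p hp
    obtain ⟨x, y, hxy, e⟩ := (hL p).1 (period_mem h hdet hp)
    obtain ⟨m, hm⟩ := hk a b c d hdet p hp
    refine ⟨x, y, m, hxy, e, ?_⟩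
    have h1 : p.re = x * Op := by rw [e]; simp
    rw [h1] at hm
    have h2 : (x : ℝ) = m * k := by
      have h3 : (x : ℝ) * Op = (m * k) * Op := by rw [hm]; ring
      exact mul_right_cancel₀ hOp h3
    exact_mod_cast h2
  have hmem : ((Op : ℂ) + Om * Complex.I) ∈ L.lattice :=
    (hL _).2 ⟨1, 1, by norm_num, by push_cast; ring⟩
  rcases Int.even_or_odd k with ⟨j, hj⟩ | ⟨j, hj⟩
  · exfalso
    have hv : ((2 * Om * Complex.I : ℂ)).im ≠ 0 := by
      have : ((2 * Om * Complex.I : ℂ)).im = 2 * Om := by simp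
      rw [this]
      exact mul_ne_zero two_ne_zero hOm
    have hm : ∀ w : ℂ, w ∈ (mkL (2 * Op) (2 * Om * Complex.I) (mul_ne_zero two_ne_zero hOp)
        hv).lattice ↔ ∃ a b : ℤ, w = a * (2 * Op) + b * (2 * Om * Complex.I) := by
      intro w
      rw [PeriodPair.mem_lattice]
      constructor
      · rintro ⟨a, b, rfl⟩
        exact ⟨a, b, by simp [mkL]⟩
      · rintro ⟨a, b, rfl⟩
        exact ⟨a, b, by simp [mkL]⟩
    have key := scale h hcusp _ (fun w hw => by
        obtain ⟨a, b, rfl⟩ := (hm w).1 hw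
        exact (hL _).2 ⟨2 * a, 2 * b, by omega, by push_cast; ring⟩) (fun a b c d hdet p hp => by
        obtain ⟨x, y, m, hxy, e, hx⟩ := hper a b c d hdet p hp
        have h1 : x = 2 * (m * j) := by rw [hx, hj]; ring
        obtain ⟨t, ht⟩ := hxy
        have h2 : y = 2 * (m * j - t) := by omega
        refine (hm p).2 ⟨m * j, m * j - t, ?_⟩
        rw [e, h2, h1]
        push_cast
        ring) _ hmem
    obtain ⟨a, b, hab⟩ := (hm _).1 key
    have h1 := congrArg Complex.re hab
    have h2 : Op = a * (2 * Op) := by simpa using h1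
    have h3 : (1 : ℝ) = a * 2 := by
      have h4 : (1 : ℝ) * Op = (a * 2) * Op := by linarith
      exact mul_right_cancel₀ hOp h4
    have h4 : (1 : ℤ) = a * 2 := by exact_mod_cast h3
    omega
  · have hk0 : (k : ℝ) ≠ 0 := by
      have : k ≠ 0 := by omega
      exact_mod_cast this
    have hv : (((k * Op : ℝ) : ℂ) + Om * Complex.I).im ≠ 0 := by
      have : (((k * Op : ℝ) : ℂ) + Om * Complex.I).im = Om := by simp
      rw [this]
      exact hOm
    have hu : 2 * (k * Op) ≠ 0 := mul_ne_zero two_ne_zero (mul_ne_zero hk0 hOp)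
    have hm : ∀ w : ℂ, w ∈ (mkL (2 * (k * Op)) (((k * Op : ℝ) : ℂ) + Om * Complex.I) hu
        hv).lattice ↔ ∃ a b : ℤ, w = a * (2 * (k * Op)) + b * (k * Op + Om * Complex.I) := by
      intro w
      rw [PeriodPair.mem_lattice]
      constructor
      · rintro ⟨a, b, rfl⟩
        exact ⟨a, b, by simp [mkL]⟩
      · rintro ⟨a, b, rfl⟩
        exact ⟨a, b, by simp [mkL]⟩
    have key := scale h hcusp _ (fun w hw => by
        obtain ⟨a, b, rfl⟩ := (hm w).1 hw
        refine (hL _).2 ⟨2 * (a * k) + b * k, b, ?_, by push_cast; ring⟩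
        exact ⟨a * k + b * j, by rw [hj]; ring⟩) (fun a b c d hdet p hp => by
        obtain ⟨x, y, m, hxy, e, hx⟩ := hper a b c d hdet p hp
        obtain ⟨t, ht⟩ := hxy
        -- `m - y` is even
        have h1 : m - y = 2 * (t - m * j) := by
          have h2 : x = m * (2 * j + 1) := by rw [hx, hj]
          have h3 : m * (2 * j + 1) - y = 2 * t := by rw [← h2]; exact ht
          linear_combination h3
        refine (hm p).2 ⟨t - m * j, y, ?_⟩
        have h2 : (m : ℂ) = y + 2 * (t - m * j) := by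
          have : m = y + 2 * (t - m * j) := by linarith
          exact_mod_cast congrArg (Int.cast (R := ℂ)) this
        have h3 : (x : ℂ) = m * k := by rw [hx]; push_cast; ring
        rw [e, h3]
        push_cast
        linear_combination ((k : ℂ) * Op) * h2) _ hmem
    obtain ⟨a, b, hab⟩ := (hm _).1 key
    have h1 := congrArg Complex.re hab
    have h2 := congrArg Complex.im hab
    have h3 : Op = a * (2 * (k * Op)) + b * (k * Op) := by simpa using h1
    have h4 : Om = b * Om := by simpa using h2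
    have h5 : (1 : ℝ) = b := by
      have : (1 : ℝ) * Om = b * Om := by linarith
      exact mul_right_cancel₀ hOm this
    have h6 : (1 : ℝ) = (2 * a + b) * k := by
      have : (1 : ℝ) * Op = ((2 * a + b) * k) * Op := by linarith
      exact mul_right_cancel₀ hOp this
    have h7 : (1 : ℤ) = (2 * a + b) * k := by exact_mod_cast h6
    exact Int.isUnit_iff.1 (IsUnit.of_mul_eq_one (2 * a + b) (by rw [mul_comm]; exact h7.symm))

/-! ### level `17` -/

theorem cop_of {r : ℚ} (hr : ¬ ((17 : ℕ) : ℤ) ∣ r.den) : Nat.Coprime 17 r.den := by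
  rw [Nat.Prime.coprime_iff_not_dvd (by norm_num)]
  intro h
  exact hr (by exact_mod_cast h)

/-- the cusps prime to the level are not in the lattice -/
theorem II17_cop {L : PeriodPair} (g2 : L.g₂ = 11 / 4) (g3 : L.g₃ = 12015 / 216) (r : ℚ)
    (hr : ¬ ((17 : ℕ) : ℤ) ∣ r.den) : II f17 r ∉ L.lattice := by
  intro hm
  have h1 := II_cop (param17 L g2 g3) r (cop_of hr)
  have h2 := sub_mem hm h1
  rw [sub_sub_cancel] at h2
  exact (tors0 L g2 g3).1 h2

/-- the period of a matrix is the difference of the values at the cusps -/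
theorem per_eq {a b c d : ℤ} (hdet : a * d - b * (((17 : ℕ) : ℤ) * c) = 1) {p : ℂ}
    (hp : ∀ z : ℂ, 0 < z.im → F f17 ((a * z + b) / (((17 : ℕ) : ℂ) * c * z + d)) = F f17 z + p) :
    p = II f17 ((b : ℚ) / d) - II f17 0 := by
  have hd : d ≠ 0 := d_ne (a := a) (b := b) (c := c) (by push_cast at hdet; linear_combination hdet)
  have h1 := II_gamma f17 hdet hp 0 (by
    rw [mul_zero, zero_add]
    exact_mod_cast hd)
  rw [mul_zero, mul_zero, zero_add, zero_add] at h1
  rw [h1, add_sub_cancel_left]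

/-- **the exact scale of the even symbol** -/
theorem scale_even {L : PeriodPair} (g2 : L.g₂ = 11 / 4) (g3 : L.g₃ = 12015 / 216) {Op Om : ℝ}
    (hOp : Op ≠ 0) (hOm : Om ≠ 0)
    (hL : ∀ w : ℂ, w ∈ L.lattice ↔ ∃ a b : ℤ, 2 ∣ a - b ∧ w = a * Op + b * Om * Complex.I) :
    (II f17 (1 / 3)).re - (II f17 0).re = Op ∨ (II f17 (1 / 3)).re - (II f17 0).re = -Op := by
  have hP := param17 L g2 g3
  obtain ⟨κ, hκ⟩ : ∃ κ : ℝ, κ = (II f17 (1 / 3)).re - (II f17 0).re := ⟨_, rfl⟩
  -- every period has a real part in `κ ℤ`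
  have key : ∀ (a b c d : ℤ), a * d - b * (((17 : ℕ) : ℤ) * c) = 1 → ∀ p : ℂ,
      (∀ z : ℂ, 0 < z.im → F f17 ((a * z + b) / (((17 : ℕ) : ℂ) * c * z + d)) = F f17 z + p) →
      ∃ m : ℤ, p.re = m * κ := by
    intro a b c d hdet p hp
    have hdet' : a * d - 17 * (b * c) = 1 := by push_cast at hdet; linear_combination hdet
    obtain ⟨m, hm⟩ := HH3_two hdet'
    have h1 := even_eq (symbE_re eigen17) evH3 hdet'
    rw [HH3_val, hm, ← hκ] at h1
    refine ⟨m, ?_⟩
    rw [per_eq hdet hp, Complex.sub_re]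
    push_cast at h1
    linarith
  -- the number itself is such a real part
  obtain ⟨k, hk⟩ : ∃ k : ℤ, κ = k * Op := by
    have hdet : (6 : ℤ) * 3 - 1 * (((17 : ℕ) : ℤ) * 1) = 1 := by norm_num
    obtain ⟨p, hp⟩ := F_gamma f17 hdet
    obtain ⟨x, y, -, e⟩ := (hL p).1 (period_mem hP hdet hp)
    refine ⟨x, ?_⟩
    have h1 := per_eq hdet hp
    have h2 : p.re = x * Op := by rw [e]; simp
    rw [← h2, h1, Complex.sub_re, hκ]
    norm_num
  have h3 := scale_re hP (fun r hr => II17_cop g2 g3 r hr) hOp hOm hL k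
    (fun a b c d hdet p hp => by
      obtain ⟨m, hm⟩ := key a b c d hdet p hp
      exact ⟨m, by rw [hm, hk]⟩)
  rw [← hκ, hk]
  rcases h3 with h3 | h3
  · left; rw [h3]; push_cast; ring
  · right; rw [h3]; push_cast; ring

/-! ### the odd symbol -/

open Pool.Agent.N975.S17 (GG GG_pos GG_neg_neg symb_eq symb17_im sg') in
/-- the values of the counting function are even -/
theorem GG_two {a b c d : ℤ} (h : a * d - 17 * (b * c) = 1) : ∃ m : ℤ, GG b c d = 2 * m := by
  have key : ∀ {a b c d : ℤ}, a * d - 17 * (b * c) = 1 → 0 < d → ∃ m : ℤ, GG b c d = 2 * m := by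
    intro a b c d h hd
    have par : ∀ x : ℤ, IsCoprime x d → Pool.Agent.N972.P17.sg x d % 2 = if d ≤ 2 then 0 else 1 := by
      intro x hx
      have hx0 : x % d = 0 → d = 1 := by
        intro h1
        have h2 : d ∣ x := Int.dvd_of_emod_eq_zero h1
        have h3 : IsUnit d := hx.isUnit_of_dvd' h2 dvd_rfl
        rcases Int.isUnit_iff.1 h3 with h4 | h4 <;> omega
      have hx1 : 2 * (x % d) = d → d = 2 := by
        intro h1
        have h2 : x % d ∣ d := ⟨2, by linarith⟩
        have h3 : x % d ∣ x := by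
          have h4 := Int.emod_add_mul_ediv x d
          refine ⟨1 + 2 * (x / d), ?_⟩
          generalize x % d = y at *
          generalize x / d = e at *
          rw [← h4, ← h1]
          ring
        have h4 : IsUnit (x % d) := hx.isUnit_of_dvd' h3 h2
        rcases Int.isUnit_iff.1 h4 with h5 | h5 <;> omega
      unfold Pool.Agent.N972.P17.sg
      split_ifs with h1 h2 h3 h4 h5
      · rfl
      · rcases h1 with h1 | h1
        · have := hx0 h1; omega
        · have := hx1 h1; omega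
      · exfalso
        apply h1
        have hm := Int.emod_nonneg x hd.ne'
        have hm2 := Int.emod_lt_of_pos x hd
        omega
      · rfl
      · exfalso
        apply h1
        have hm := Int.emod_nonneg x hd.ne'
        have hm2 := Int.emod_lt_of_pos x hd
        omega
      · rfl
    have p1 := par b ⟨-(17 * c), a, by linear_combination h⟩
    have p2 := par c ⟨-(17 * b), a, by linear_combination h⟩
    refine ⟨GG b c d / 2, ?_⟩
    rw [GG_pos hd]
    unfold Pool.Agent.N972.P17.Gs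
    rw [← p2] at p1
    omega
  rcases lt_or_gt_of_ne (d_ne h) with hd | hd
  · obtain ⟨m, hm⟩ := key (a := -a) (b := -b) (c := -c) (d := -d) (by linear_combination h)
      (by omega)
    exact ⟨m, by rw [← hm, GG_neg_neg (d_ne h)]⟩
  · exact key h hd

open Pool.Agent.N975.S17 (GG symb_eq symb17_im) in
/-- **the exact scale of the odd symbol** -/
theorem scale_odd {L : PeriodPair} (g2 : L.g₂ = 11 / 4) (g3 : L.g₃ = 12015 / 216) {Op Om : ℝ}
    (hOp : Op ≠ 0) (hOm : Om ≠ 0)
    (hL : ∀ w : ℂ, w ∈ L.lattice ↔ ∃ a b : ℤ, 2 ∣ a - b ∧ w = a * Op + b * Om * Complex.I) :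
    (II f17 (1 / 3)).im = Om ∨ (II f17 (1 / 3)).im = -Om := by
  have hP := param17 L g2 g3
  have z0 := II_zero_im f17 eigen17.real
  obtain ⟨κ, hκ⟩ : ∃ κ : ℝ, κ = (II f17 (1 / 3)).im := ⟨_, rfl⟩
  have key : ∀ (a b c d : ℤ), a * d - b * (((17 : ℕ) : ℤ) * c) = 1 → ∀ p : ℂ,
      (∀ z : ℂ, 0 < z.im → F f17 ((a * z + b) / (((17 : ℕ) : ℂ) * c * z + d)) = F f17 z + p) →
      ∃ m : ℤ, p.im = m * κ := by
    intro a b c d hdet p hp
    have hdet' : a * d - 17 * (b * c) = 1 := by push_cast at hdet; linear_combination hdet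
    obtain ⟨m, hm⟩ := GG_two hdet'
    have h1 := symb_eq (symb17_im eigen17) hdet'
    rw [hm, ← hκ] at h1
    refine ⟨m, ?_⟩
    rw [per_eq hdet hp, Complex.sub_im, z0, sub_zero]
    push_cast at h1
    linarith
  obtain ⟨k, hk⟩ : ∃ k : ℤ, κ = k * Om := by
    have hdet : (6 : ℤ) * 3 - 1 * (((17 : ℕ) : ℤ) * 1) = 1 := by norm_num
    obtain ⟨p, hp⟩ := F_gamma f17 hdet
    obtain ⟨x, y, -, e⟩ := (hL p).1 (period_mem hP hdet hp)
    refine ⟨y, ?_⟩
    have h1 := per_eq hdet hp
    have h2 : p.im = y * Om := by rw [e]; simp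
    rw [← h2, h1, Complex.sub_im, z0, sub_zero, hκ]
    norm_num
  have hv : ((Op : ℂ) + Om * Complex.I).im = Om := by simp
  have h3 := Pool.Agent.N971.EX.scale_im hP (fun r hr => II17_cop g2 g3 r hr)
    (Op := 2 * Op) (v := Op + Om * Complex.I) (mul_ne_zero two_ne_zero hOp) (by rw [hv]; exact hOm)
    (by
      intro w
      rw [hL]
      constructor
      · rintro ⟨a, b, ⟨t, ht⟩, rfl⟩
        refine ⟨t, b, ?_⟩
        have h4 : (a : ℂ) = b + 2 * t := by
          have : a = b + 2 * t := by linarith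
          exact_mod_cast congrArg (Int.cast (R := ℂ)) this
        rw [h4]
        push_cast
        ring
      · rintro ⟨a, b, rfl⟩
        exact ⟨2 * a + b, b, ⟨a, by ring⟩, by push_cast; ring⟩) k
    (fun a b c d hdet p hp => by
      obtain ⟨m, hm⟩ := key a b c d hdet p hp
      exact ⟨m, by rw [hm, hk, hv]⟩)
  rw [← hκ, hk]
  rcases h3 with h3 | h3
  · left; rw [h3]; push_cast; ring
  · right; rw [h3]; push_cast; ring

end

end Pool.Agent.N974.PG
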