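import Pool.Agent.N974.PG.Bij

/-!
# Sums over forms as sums over matrices; the symmetry of the intersection number
-/

set_option autoImplicit false

open Finset

namespace Pool.Agent.N974.PG

open Pool.Agent.N975.PG (gn Fa ca FG)
open Pool.Agent.N975.Sym (ev)
open Pool.Agent.N969.P15 (un)

noncomputable section

/-- the forms which separate infinity and `x / M` -/
theorem fin_forms (A : ℕ) (x : ℤ) {M : ℤ} (hM : M ≠ 0) :
    {q : ℤ × ℤ × ℤ | q.2.1 ^ 2 - 4 * q.1 * q.2.2 = (A : ℤ) ^ 2 ∧ q.1 * ev q x M < 0}.Finite := by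
  obtain ⟨K, hK⟩ : ∃ K : ℤ, K = (A : ℤ) ^ 2 * M ^ 2 := ⟨_, rfl⟩
  obtain ⟨K2, hK2⟩ : ∃ K2 : ℤ, K2 = K + 1 + 2 * K * |x| := ⟨_, rfl⟩
  obtain ⟨K3, hK3⟩ : ∃ K3 : ℤ, K3 = K2 ^ 2 + (A : ℤ) ^ 2 := ⟨_, rfl⟩
  refine Set.Finite.subset ((Finset.Icc (-K) K ×ˢ Finset.Icc (-K2) K2 ×ˢ
    Finset.Icc (-K3) K3).finite_toSet) ?_
  rintro ⟨al, be, ga⟩ ⟨h1, h2⟩
  simp only at h1 h2
  have e : 4 * (al * ev (al, be, ga) x M) = (2 * al * x + be * M) ^ 2 - K := by
    unfold ev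
    simp only
    rw [hK]
    linear_combination (-M ^ 2) * h1
  have h0 : al ≠ 0 := by rintro rfl; simp at h2
  have hev : ev (al, be, ga) x M ≠ 0 := by intro h; rw [h] at h2; simp at h2
  have h3 : |al| ≤ -(al * ev (al, be, ga) x M) := by
    rw [← abs_of_neg h2, abs_mul]
    have : 1 ≤ |ev (al, be, ga) x M| := Int.one_le_abs hev
    have := abs_nonneg al
    nlinarith
  have h4 : |al| ≤ K := by
    have : 0 ≤ (2 * al * x + be * M) ^ 2 := sq_nonneg _
    have h5 : 0 ≤ |al| := abs_nonneg al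
    linarith
  have h5 : (2 * al * x + be * M) ^ 2 < K := by
    have : 0 < |al| := abs_pos.2 h0
    linarith
  have hK0 : 0 ≤ K := by rw [hK]; positivity
  have h6 : |2 * al * x + be * M| ≤ K := by
    rw [← sq_abs] at h5
    have := abs_nonneg (2 * al * x + be * M)
    nlinarith
  have h7 : |be| ≤ K2 := by
    have h8 : |be| ≤ |be * M| := by
      rw [abs_mul]
      have := Int.one_le_abs hM
      have := abs_nonneg be
      nlinarith
    have h9 : |be * M| ≤ |2 * al * x + be * M| + |2 * al * x| := by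
      have := abs_sub (2 * al * x + be * M) (2 * al * x)
      have e2 : 2 * al * x + be * M - 2 * al * x = be * M := by ring
      rwa [e2] at this
    have h10 : |2 * al * x| ≤ 2 * K * |x| := by
      rw [abs_mul, abs_mul]
      have e3 : |(2 : ℤ)| = 2 := rfl
      rw [e3]
      have := abs_nonneg x
      nlinarith
    rw [hK2]
    linarith
  have h11 : |ga| ≤ K3 := by
    have h12 : |ga| ≤ |al * ga| := by
      rw [abs_mul]
      have := Int.one_le_abs h0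
      have := abs_nonneg ga
      nlinarith
    have h13 : 4 * |al * ga| = |be ^ 2 - (A : ℤ) ^ 2| := by
      have : be ^ 2 - (A : ℤ) ^ 2 = 4 * (al * ga) := by linear_combination h1
      rw [this, abs_mul (4 : ℤ) (al * ga), abs_of_pos (by norm_num : (0 : ℤ) < 4)]
    have h14 : |be ^ 2 - (A : ℤ) ^ 2| ≤ be ^ 2 + (A : ℤ) ^ 2 := by
      rw [abs_le]
      constructor <;> nlinarith [sq_nonneg be, sq_nonneg (A : ℤ)]
    have h15 : be ^ 2 ≤ K2 ^ 2 := by
      rw [← sq_abs]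
      exact pow_le_pow_left₀ (abs_nonneg _) h7 2
    have := abs_nonneg (al * ga)
    rw [hK3]
    linarith
  simp only [Finset.coe_product, Finset.coe_Icc, Set.mem_prod, Set.mem_Icc]
  exact ⟨abs_le.1 h4, abs_le.1 h7, abs_le.1 h11⟩

/-- a genus weight with its character -/
structure Gw (A : ℕ) (w : ℤ × ℤ × ℤ → ℤ) (χ : ℤ → ℤ) : Prop where
  pos : 0 < A
  cop : ¬ 17 ∣ A
  van : Van A w
  val : ∀ {u : ℤ}, IsCoprime u (A : ℤ) → ∀ {g : ℤ × ℤ × ℤ × ℤ}, inG g → w (qf u A g) = χ (-u)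

theorem gw_gn {A : ℕ} (hsq : Squarefree A) (h17 : ¬ 17 ∣ A) :
    Gw A (gn A) (fun u => jacobiSym u A) where
  pos := Nat.pos_of_ne_zero hsq.ne_zero
  cop := h17
  van := van_gn (Nat.pos_of_ne_zero hsq.ne_zero)
  val := fun hu _ hg => qf_gn hsq hu hg

open Classical in
/-- the sign of a form separating infinity and `x / M` -/
def Wq (A : ℕ) (w : ℤ × ℤ × ℤ → ℤ) (x M : ℤ) (q : ℤ × ℤ × ℤ) : ℤ :=
  if inA A q ∧ q.1 * ev q x M < 0 then w q * Int.sign q.1 else 0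

open Classical in
/-- the sign of a crossing of the image of `{∞, u / A}` with `{∞, v / B}` -/
def Kt (u A v B : ℤ) (g : ℤ × ℤ × ℤ × ℤ) : ℤ :=
  if inG g ∧ (g.2.2.1 * u + g.2.2.2 * A) * ((g.1 * B - g.2.2.1 * v) *
    ((g.1 * u + g.2.1 * A) * B - (g.2.2.1 * u + g.2.2.2 * A) * v)) < 0 then
    Int.sign (g.2.2.1 * u + g.2.2.2 * A) else 0

/-- the intersection number -/
def K (u A v B : ℤ) : ℤ := ∑ᶠ g : ℤ × ℤ × ℤ × ℤ, Kt u A v B g

theorem ev_qf (u A v B : ℤ) (g : ℤ × ℤ × ℤ × ℤ) : ev (qf u A g) v B =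
    -((g.1 * B - g.2.2.1 * v) *
      ((g.1 * u + g.2.1 * A) * B - (g.2.2.1 * u + g.2.2.2 * A) * v)) := by
  unfold ev qf
  simp only
  ring

theorem cross_iff {u A v B : ℤ} {g : ℤ × ℤ × ℤ × ℤ} (h : inG g) :
    (qf u A g).1 * ev (qf u A g) v B < 0 ↔
      (g.2.2.1 * u + g.2.2.2 * A) * ((g.1 * B - g.2.2.1 * v) *
    ((g.1 * u + g.2.1 * A) * B - (g.2.2.1 * u + g.2.2.2 * A) * v)) < 0 := by
  have e : (qf u A g).1 * ev (qf u A g) v B = g.2.2.1 * ((g.2.2.1 * u + g.2.2.2 * A) *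
      ((g.1 * B - g.2.2.1 * v) *
    ((g.1 * u + g.2.1 * A) * B - (g.2.2.1 * u + g.2.2.2 * A) * v))) := by
    rw [ev_qf]
    unfold qf
    simp only
    ring
  rw [e]
  have h3 := h.2.2
  constructor
  · intro h4
    by_contra h5
    push Not at h5
    exact absurd h4 (not_lt.2 (mul_nonneg h3.le h5))
  · intro h4
    exact mul_neg_of_pos_of_neg h3 h4

theorem sign_qf {u A : ℤ} {g : ℤ × ℤ × ℤ × ℤ} (h : inG g) :
    Int.sign (qf u A g).1 = -Int.sign (g.2.2.1 * u + g.2.2.2 * A) := by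
  unfold qf
  simp only
  rw [Int.sign_neg, Int.sign_mul, Int.sign_eq_one_of_pos h.2.2, one_mul]

theorem Kt_fin {A : ℕ} (hA : 0 < A) {u : ℤ} (hu0 : 0 ≤ u) (hu1 : u < A) (v : ℤ) {B : ℤ}
    (hB : B ≠ 0) : (Function.support (Kt u A v B)).Finite := by
  classical
  refine Set.Finite.of_finite_image (f := fun g => qf u A g) ?_ ?_
  · refine (fin_forms A v hB).subset ?_
    rintro q ⟨g, hg, rfl⟩
    simp only [Function.mem_support, Kt, ne_eq, ite_eq_right_iff, Classical.not_imp] at hg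
    exact ⟨(qf_inA hg.1.1).1, (cross_iff hg.1.1).2 hg.1.2⟩
  · intro g hg g' hg' e
    simp only [Function.mem_support, Kt, ne_eq, ite_eq_right_iff, Classical.not_imp] at hg hg'
    refine (qf_inj hA hu0 hu1 hu0 hu1 hg.1.1 hg'.1.1 ?_ e).2
    intro h0
    have := (cross_iff hg.1.1).2 hg.1.2
    rw [h0, zero_mul] at this
    exact lt_irrefl _ this

/-- **forms and matrices** -/
theorem sum_W {A : ℕ} {w : ℤ × ℤ × ℤ → ℤ} {χ : ℤ → ℤ} (G : Gw A w χ) (x : ℤ) {M : ℤ}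
    (hM : M ≠ 0) : ∑ᶠ q, Wq A w x M q = -∑ u ∈ un A, χ (-(u : ℤ)) * K u A x M := by
  classical
  have hA : 0 < A := G.pos
  have hfin : (Function.support (Wq A w x M)).Finite := by
    refine (fin_forms A x hM).subset ?_
    intro q hq
    simp only [Function.mem_support, Wq, ne_eq, ite_eq_right_iff, Classical.not_imp] at hq
    exact ⟨hq.1.1.1, hq.1.2⟩
  have hun : ∀ u ∈ un A, 0 ≤ (u : ℤ) ∧ (u : ℤ) < A ∧ IsCoprime (u : ℤ) A := by
    intro u hu
    obtain ⟨h1, h2⟩ := Finset.mem_filter.1 hu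
    refine ⟨by positivity, by exact_mod_cast Finset.mem_range.1 h1, ?_⟩
    exact_mod_cast h2.isCoprime
  -- the finite sets of matrices
  obtain ⟨S, hS⟩ : ∃ S : ℕ → Finset (ℤ × ℤ × ℤ × ℤ), ∀ u ∈ un A, ∀ g,
      g ∈ S u ↔ Kt u A x M g ≠ 0 := by
    refine ⟨fun u => if h : u ∈ un A then
      (Kt_fin hA (hun u h).1 (hun u h).2.1 x hM).toFinset else ∅, fun u hu g => ?_⟩
    simp only [dif_pos hu, Set.Finite.mem_toFinset, Function.mem_support]
  have hK : ∀ u ∈ un A, K u A x M = ∑ g ∈ S u, Kt u A x M g := by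
    intro u hu
    unfold K
    refine finsum_eq_sum_of_support_subset _ ?_
    intro g hg
    exact_mod_cast (hS u hu g).2 hg
  have e1 : -∑ u ∈ un A, χ (-(u : ℤ)) * K u A x M =
      ∑ u ∈ un A, ∑ g ∈ S u, -(χ (-(u : ℤ)) * Kt u A x M g) := by
    rw [← Finset.sum_neg_distrib]
    refine Finset.sum_congr rfl fun u hu => ?_
    rw [hK u hu, Finset.mul_sum, Finset.sum_neg_distrib]
  rw [e1, Finset.sum_sigma', finsum_eq_sum_of_support_subset (s := hfin.toFinset) _ (by simp)]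
  symm
  have key : ∀ (u : ℕ) (g : ℤ × ℤ × ℤ × ℤ), u ∈ un A → Kt u A x M g ≠ 0 →
      inG g ∧ (qf u A g).1 * ev (qf u A g) x M < 0 ∧
        Wq A w x M (qf u A g) = -(χ (-(u : ℤ)) * Kt u A x M g) := by
    intro u g hu hg
    simp only [Kt, ne_eq, ite_eq_right_iff, Classical.not_imp] at hg
    obtain ⟨⟨h1, h2⟩, h3⟩ := hg
    have h4 := (cross_iff h1).2 h2
    refine ⟨h1, h4, ?_⟩
    unfold Wq Kt
    rw [if_pos ⟨qf_inA h1, h4⟩, if_pos ⟨h1, h2⟩, G.val (hun u hu).2.2 h1, sign_qf h1]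
    ring
  refine Finset.sum_bij_ne_zero (fun x _ _ => qf (x.1 : ℤ) A x.2) ?_ ?_ ?_ ?_
  · rintro ⟨u, g⟩ h1 h2
    rw [Finset.mem_sigma] at h1
    obtain ⟨k1, k2, k3⟩ := key u g h1.1 ((hS u h1.1 g).1 h1.2)
    rw [Set.Finite.mem_toFinset, Function.mem_support, k3]
    exact h2
  · rintro ⟨u, g⟩ h1 _ ⟨u', g'⟩ h1' _ e
    rw [Finset.mem_sigma] at h1 h1'
    obtain ⟨k1, k2, k3⟩ := key u g h1.1 ((hS u h1.1 g).1 h1.2)
    obtain ⟨k1', k2', k3'⟩ := key u' g' h1'.1 ((hS u' h1'.1 g').1 h1'.2)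
    have hne : (qf (u : ℤ) A g).1 ≠ 0 := by
      intro h0
      rw [h0, zero_mul] at k2
      exact lt_irrefl _ k2
    obtain ⟨f1, f2⟩ := qf_inj hA (hun u h1.1).1 (hun u h1.1).2.1 (hun u' h1'.1).1
      (hun u' h1'.1).2.1 k1 k1' hne e
    have f1' : u = u' := by exact_mod_cast f1
    subst f1'
    subst f2
    rfl
  · intro q _ hq
    have hq' := hq
    simp only [Wq, ne_eq, ite_eq_right_iff, Classical.not_imp] at hq'
    obtain ⟨⟨h1, h2⟩, h3⟩ := hq'
    have h0 : q.1 ≠ 0 := by intro h0; rw [h0, zero_mul] at h2; exact lt_irrefl _ h2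
    have hg : w q ≠ 0 := fun h => h3 (by rw [h, zero_mul])
    obtain ⟨u, hu, g, hg1, rfl⟩ := qf_surj hA G.cop G.van h1 h0 hg
    have h4 : Kt u A x M g ≠ 0 := by
      unfold Kt
      rw [if_pos ⟨hg1, (cross_iff hg1).1 h2⟩]
      intro h5
      have h6 := Int.sign_eq_zero_iff_zero.1 h5
      have h7 := (cross_iff hg1).1 h2
      rw [h6, zero_mul] at h7
      exact lt_irrefl _ h7
    obtain ⟨k1, k2, k3⟩ := key u g hu h4
    refine ⟨⟨u, g⟩, Finset.mem_sigma.2 ⟨hu, (hS u hu g).2 h4⟩, ?_, rfl⟩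
    rw [← k3]
    exact hq
  · rintro ⟨u, g⟩ h1 _
    rw [Finset.mem_sigma] at h1
    exact (key u g h1.1 ((hS u h1.1 g).1 h1.2)).2.2.symm

/-- the involution of the matrices -/
def inv4 : (ℤ × ℤ × ℤ × ℤ) ≃ (ℤ × ℤ × ℤ × ℤ) where
  toFun g := (-g.2.2.2, g.2.1, g.2.2.1, -g.1)
  invFun g := (-g.2.2.2, g.2.1, g.2.2.1, -g.1)
  left_inv g := by simp
  right_inv g := by simp

/-- **the symmetry of the intersection number** -/
theorem swap {A B : ℤ} (hA : 0 < A) (hB : 0 < B) (u v : ℤ) : K v B u A = -K u A v B := by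
  unfold K
  rw [← finsum_neg_distrib, ← finsum_comp_equiv inv4]
  refine finsum_congr fun g => ?_
  obtain ⟨p, r, a, s⟩ := g
  unfold Kt inv4
  simp only [Equiv.coe_fn_mk]
  have hG : inG (-s, r, a, -p) ↔ inG (p, r, a, s) := by
    unfold inG
    simp only
    constructor
    · rintro ⟨h1, h2, h3⟩; exact ⟨by linear_combination h1, h2, h3⟩
    · rintro ⟨h1, h2, h3⟩; exact ⟨by linear_combination h1, h2, h3⟩
  have e : (a * v + -p * B) * ((-s * A - a * u) * ((-s * v + r * B) * A - (a * v + -p * B) * u)) =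
      (a * u + s * A) * ((p * B - a * v) * ((p * u + r * A) * B - (a * u + s * A) * v)) := by
    ring
  by_cases h : inG (p, r, a, s) ∧
      (a * u + s * A) * ((p * B - a * v) * ((p * u + r * A) * B - (a * u + s * A) * v)) < 0
  · rw [if_pos h]
    have h' : inG (-s, r, a, -p) ∧ (a * v + -p * B) * ((-s * A - a * u) *
        ((-s * v + r * B) * A - (a * v + -p * B) * u)) < 0 := ⟨hG.2 h.1, by rw [e]; exact h.2⟩
    rw [if_pos h']
    obtain ⟨⟨h1, -, h3⟩, h4⟩ := h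
    simp only at h1 h3
    -- the signs agree
    obtain ⟨a', ha'⟩ : ∃ a', a' = a * u + s * A := ⟨_, rfl⟩
    obtain ⟨D1, hD1⟩ : ∃ D1, D1 = p * B - a * v := ⟨_, rfl⟩
    obtain ⟨D2, hD2⟩ : ∃ D2, D2 = (p * u + r * A) * B - (a * u + s * A) * v := ⟨_, rfl⟩
    have e2 : a' * D1 - a * D2 = A * B := by
      rw [ha', hD1, hD2]
      linear_combination (A * B) * h1
    rw [← hD2, ← ha', ← hD1] at h4
    have e3 : a * v + -p * B = -D1 := by rw [hD1]; ring
    rw [e3, ← ha', Int.sign_neg]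
    congr 1
    have h5 : 0 < a' * D1 := by
      by_contra h6
      push Not at h6
      have h7 : a * D2 < 0 := by nlinarith
      have h8 : D2 < 0 := by
        by_contra h9
        push Not at h9
        nlinarith
      have h10 : 0 ≤ a' * D1 * D2 := mul_nonneg_of_nonpos_of_nonpos h6 h8.le
      nlinarith
    rcases pos_and_pos_or_neg_and_neg_of_mul_pos h5 with ⟨h6, h7⟩ | ⟨h6, h7⟩
    · rw [Int.sign_eq_one_of_pos h6, Int.sign_eq_one_of_pos h7]
    · rw [Int.sign_eq_neg_one_of_neg h6, Int.sign_eq_neg_one_of_neg h7]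
  · have h' : ¬ (inG (-s, r, a, -p) ∧ (a * v + -p * B) * ((-s * A - a * u) *
        ((-s * v + r * B) * A - (a * v + -p * B) * u)) < 0) := by
      rintro ⟨h1, h2⟩
      exact h ⟨hG.1 h1, by rw [← e]; exact h2⟩
    rw [if_neg h, if_neg h', neg_zero]

end

end Pool.Agent.N974.PG
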