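import Pool.Agent.N974.PG.Swap
import Pool.Agent.N975.PG.Hom

/-!
# The boundary terms for the forms of discriminant `9`
-/

set_option autoImplicit false

open Finset

namespace Pool.Agent.N974.PG

open Pool.Agent.N975.PG (gn e E E' wi wo E'_pos E'_neg_neg e_fin)
open Pool.Agent.N969.P15 (un)

noncomputable section

theorem gn3 (q : ℤ × ℤ × ℤ) : gn 3 q = if (3 : ℤ) ∣ q.1 then jacobiSym q.2.2 3 else jacobiSym q.1 3 := by
  unfold gn
  rw [Nat.Prime.primeFactors Nat.prime_three, Finset.prod_singleton]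
  rfl

theorem wi3 (C : ℤ) : wi 3 (gn 3) C = jacobiSym C 3 := by
  unfold wi
  rw [gn3, if_pos (dvd_zero _)]

theorem jac3_zero {C : ℤ} (h : (3 : ℤ) ∣ C) : jacobiSym C 3 = 0 := by
  have h1 : C % ((3 : ℕ) : ℤ) = 0 := Int.emod_eq_zero_of_dvd (by exact_mod_cast h)
  rw [jacobiSym.mod_left, h1]
  exact jacobiSym.zero_left (by norm_num)

theorem wo3 (C : ℤ) : wo 3 (gn 3) C = -jacobiSym C 3 := by
  unfold wo
  rw [gn3]
  have h17 : jacobiSym 17 3 = -1 := by norm_num
  simp only
  split_ifs with h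
  · rw [jac3_zero (dvd_zero 3), jac3_zero (show (3 : ℤ) ∣ C by omega), neg_zero]
  · rw [jacobiSym.mul_left, h17]
    ring

/-- the character modulo `3` -/
def w3 (C : ℤ) : ℤ := jacobiSym C 3

theorem wi_eq : wi 3 (gn 3) = w3 := funext wi3

theorem wo_eq : wo 3 (gn 3) = fun C => -w3 C := funext wo3

theorem w3_1 : w3 1 = 1 := by unfold w3; norm_num

theorem w3_2 : w3 2 = -1 := by unfold w3; norm_num

theorem w3_m1 : w3 (-1) = -1 := by unfold w3; norm_num

theorem w3_m2 : w3 (-2) = 1 := by unfold w3; norm_num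

theorem w3_0 : w3 0 = 0 := jac3_zero (dvd_zero 3)

theorem w3_3 : w3 3 = 0 := jac3_zero dvd_rfl

theorem w3_add (C : ℤ) : w3 (C + 3) = w3 C := by
  unfold w3
  rw [jacobiSym.mod_left, jacobiSym.mod_left C]
  congr 1
  omega

theorem E_neg_w {w : ℤ → ℤ} {M x m : ℤ} : E (fun C => -w C) M x m = -E w M x m := by
  unfold E
  rw [← finsum_neg_distrib]
  refine finsum_congr fun C => ?_
  unfold e
  ring

theorem E'_neg_w {w : ℤ → ℤ} {M x m : ℤ} : E' (fun C => -w C) M x m = -E' w M x m := by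
  unfold E'
  split_ifs <;> exact E_neg_w

/-- the value in the first period -/
theorem E3_val {x m : ℤ} (h0 : 0 < x) (h1 : x < m) :
    E w3 3 x m = Int.sign (3 * x - 2 * m) - Int.sign (3 * x - m) := by
  unfold E
  rw [finsum_eq_sum_of_support_subset (s := ({-1, -2} : Finset ℤ))]
  · rw [Finset.sum_insert (by decide), Finset.sum_singleton]
    unfold e
    rw [w3_m1, w3_m2]
    have e1 : Int.sign (-1) = -1 := rfl
    have e2 : Int.sign (-2) = -1 := rfl
    have e3 : 3 * x + -1 * m = 3 * x - m := by ring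
    have e4 : 3 * x + -2 * m = 3 * x - 2 * m := by ring
    rw [e1, e2, e3, e4]
    ring
  · intro C hC
    simp only [Function.mem_support, e] at hC
    simp only [Finset.coe_insert, Finset.coe_singleton, Set.mem_insert_iff, Set.mem_singleton_iff]
    by_contra h
    push Not at h
    apply hC
    rcases lt_trichotomy C 0 with h2 | h2 | h2
    · have h3 : C ≤ -3 := by omega
      have h4 : 3 * x + C * m < 0 := by nlinarith
      rw [Int.sign_eq_neg_one_of_neg h2, Int.sign_eq_neg_one_of_neg h4]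
      ring
    · rw [h2, w3_0, zero_mul]
    · have h4 : 0 < 3 * x + C * m := by nlinarith
      rw [Int.sign_eq_one_of_pos h2, Int.sign_eq_one_of_pos h4]
      ring

/-- periodicity -/
theorem E3_add {m : ℤ} (hm : 0 < m) (x : ℤ) : E w3 3 (x + m) m = E w3 3 x m := by
  have h1 : E w3 3 (x + m) m = ∑ᶠ C, (e w3 3 x m C + w3 C * (Int.sign C - Int.sign (C - 3))) := by
    unfold E
    rw [← finsum_comp_equiv (Equiv.subRight (3 : ℤ))]
    refine finsum_congr fun C => ?_
    simp only [Equiv.subRight_apply]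
    unfold e
    have e1 : w3 (C - 3) = w3 C := by rw [← w3_add (C - 3)]; congr 1; ring
    have e2 : 3 * (x + m) + (C - 3) * m = 3 * x + C * m := by ring
    rw [e1, e2]
    ring
  have h0 : ∀ C : ℤ, C ∉ (({0, 1, 2, 3} : Finset ℤ) : Set ℤ) →
      w3 C * (Int.sign C - Int.sign (C - 3)) = 0 := by
    intro C hC
    simp only [Finset.coe_insert, Finset.coe_singleton, Set.mem_insert_iff, Set.mem_singleton_iff,
      not_or] at hC
    rcases lt_or_gt_of_ne hC.1 with h2 | h2
    · rw [Int.sign_eq_neg_one_of_neg h2, Int.sign_eq_neg_one_of_neg (by omega : C - 3 < 0)]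
      ring
    · have : 3 < C := by omega
      rw [Int.sign_eq_one_of_pos h2, Int.sign_eq_one_of_pos (by omega : 0 < C - 3)]
      ring
  have h2 : Function.support (fun C : ℤ => w3 C * (Int.sign C - Int.sign (C - 3))) ⊆
      (({0, 1, 2, 3} : Finset ℤ) : Set ℤ) := by
    intro C hC
    by_contra h
    exact hC (h0 C h)
  rw [h1, finsum_add_distrib (e_fin _ _ _ hm) ((Finset.finite_toSet _).subset h2),
    finsum_eq_sum_of_support_subset _ h2]
  have h3 : ∑ C ∈ ({0, 1, 2, 3} : Finset ℤ), w3 C * (Int.sign C - Int.sign (C - 3)) = 0 := by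
    rw [Finset.sum_insert (by decide), Finset.sum_insert (by decide), Finset.sum_insert (by decide),
      Finset.sum_singleton, w3_0, w3_1, w3_2, w3_3]
    rfl
  rw [h3, add_zero]
  rfl

theorem E3_mod {m : ℤ} (hm : 0 < m) (x j : ℤ) : E w3 3 (x + j * m) m = E w3 3 x m := by
  induction j using Int.induction_on with
  | zero => rw [zero_mul, add_zero]
  | succ i ih =>
    have h := E3_add hm (x + (i : ℤ) * m)
    have e1 : x + (i : ℤ) * m + m = x + ((i : ℤ) + 1) * m := by ring
    rw [e1] at h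
    rw [h, ih]
  | pred i ih =>
    have h := E3_add hm (x + (-(i : ℤ) - 1) * m)
    have e1 : x + (-(i : ℤ) - 1) * m + m = x + -(i : ℤ) * m := by ring
    rw [e1] at h
    rw [← h, ih]

theorem E3_congr {m : ℤ} (hm : 0 < m) {x y : ℤ} (h : m ∣ x - y) : E w3 3 x m = E w3 3 y m := by
  obtain ⟨j, hj⟩ := h
  have : x = y + j * m := by linear_combination hj
  rw [this, E3_mod hm]

/-- an even quadratic character modulo `A` with the value `1` at `17` -/
structure ChrP (A : ℕ) (χ : ℤ → ℤ) : Prop where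
  lt : 1 < A
  per : ∀ x y : ℤ, (A : ℤ) ∣ x - y → χ x = χ y
  mul : ∀ x y : ℤ, χ (x * y) = χ x * χ y
  zero : ∀ x : ℕ, ¬ Nat.Coprime x A → χ x = 0
  pm : ∀ x : ℕ, Nat.Coprime x A → χ x = 1 ∨ χ x = -1
  one : χ 1 = 1
  neg : χ (-1) = 1
  v17 : χ 17 = 1
  sum : ∑ u ∈ un A, χ u = 0

/-- the boundary term at `1 / 3` -/
def bdc (A : ℕ) (χ : ℤ → ℤ) : ℤ := ∑ C ∈ range A, χ C * Int.sign ((A : ℤ) * (1 % 3) - (C : ℤ) * 3)

/-- the character sum of the boundary terms -/
theorem sum_E3 {A : ℕ} {χ : ℤ → ℤ} (X : ChrP A χ) :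
    ∑ u ∈ un A, χ u * E w3 3 u A = 2 * bdc A χ := by
  have hA := X.lt
  have hmem : ∀ u ∈ un A, 0 < u ∧ u < A ∧ Nat.Coprime u A := by
    intro u hu
    obtain ⟨h1, h2⟩ := Finset.mem_filter.1 hu
    refine ⟨Nat.pos_of_ne_zero ?_, Finset.mem_range.1 h1, h2⟩
    rintro rfl
    rw [Nat.coprime_zero_left] at h2
    omega
  have e1 : ∑ u ∈ un A, χ u * E w3 3 u A =
      ∑ u ∈ un A, χ u * Int.sign (3 * (u : ℤ) - 2 * A) +
        ∑ u ∈ un A, χ u * Int.sign ((A : ℤ) - 3 * u) := by
    rw [← Finset.sum_add_distrib]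
    refine Finset.sum_congr rfl fun u hu => ?_
    obtain ⟨h1, h2, -⟩ := hmem u hu
    rw [E3_val (by exact_mod_cast h1) (by exact_mod_cast h2)]
    have : (A : ℤ) - 3 * u = -(3 * (u : ℤ) - A) := by ring
    rw [this, Int.sign_neg]
    ring
  have e2 : ∑ u ∈ un A, χ u * Int.sign (3 * (u : ℤ) - 2 * A) =
      ∑ u ∈ un A, χ u * Int.sign ((A : ℤ) - 3 * u) := by
    refine Finset.sum_bij' (fun u _ => A - u) (fun u _ => A - u) ?_ ?_ ?_ ?_ ?_
    · intro u hu
      obtain ⟨h1, h2, h3⟩ := hmem u hu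
      refine Finset.mem_filter.2 ⟨Finset.mem_range.2 (by omega), ?_⟩
      exact (Nat.coprime_self_sub_left h2.le).2 h3
    · intro u hu
      obtain ⟨h1, h2, h3⟩ := hmem u hu
      refine Finset.mem_filter.2 ⟨Finset.mem_range.2 (by omega), ?_⟩
      exact (Nat.coprime_self_sub_left h2.le).2 h3
    · intro u hu
      obtain ⟨h1, h2, h3⟩ := hmem u hu
      show A - (A - u) = u
      omega
    · intro u hu
      obtain ⟨h1, h2, h3⟩ := hmem u hu
      show A - (A - u) = u
      omega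
    · intro u hu
      obtain ⟨h1, h2, h3⟩ := hmem u hu
      have e3 : (((A - u : ℕ) : ℤ)) = A - u := by push_cast [h2.le]; ring
      rw [e3]
      have e4 : χ ((A : ℤ) - u) = χ u := by
        have : χ ((A : ℤ) - u) = χ (-1 * u) := X.per _ _ ⟨1, by ring⟩
        rw [this, X.mul, X.neg, one_mul]
      rw [e4]
      congr 2
      ring
  have e5 : bdc A χ = ∑ u ∈ un A, χ u * Int.sign ((A : ℤ) - 3 * u) := by
    unfold bdc
    symm
    have : ∀ C : ℕ, χ (C : ℤ) * Int.sign ((A : ℤ) * (1 % 3) - (C : ℤ) * 3) =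
        χ (C : ℤ) * Int.sign ((A : ℤ) - 3 * C) := by
      intro C
      congr 2
      norm_num
      ring
    simp_rw [this]
    refine Finset.sum_subset (Finset.filter_subset _ _) fun j hj hj2 => ?_
    have h6 : ¬ Nat.Coprime j A := fun h => hj2 (Finset.mem_filter.2 ⟨hj, h⟩)
    rw [X.zero j h6, zero_mul]
  rw [e1, e2, e5]
  ring

end

end Pool.Agent.N974.PG
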