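import Pool.Agent.N975.PG.Defs
import Pool.Agent.N975.ChE2
import Pool.Agent.N975.SymCore

/-!
# Forms of discriminant `A ^ 2` and level `17` as images of `{∞, u / A}` under `Γ₀(17)`
-/

set_option autoImplicit false

open Finset

namespace Pool.Agent.N974.PG

open Pool.Agent.N975.PG (gn)
open Pool.Agent.N975.Sym (ev)
open Pool.Agent.N975.ChE (jac_sqfree)
open Pool.Agent.N969.P15 (un)

noncomputable section

/-- the forms of one orientation -/
def inA (A : ℕ) (q : ℤ × ℤ × ℤ) : Prop :=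
  q.2.1 ^ 2 - 4 * q.1 * q.2.2 = (A : ℤ) ^ 2 ∧ (17 : ℤ) ∣ q.1 ∧ (17 : ℤ) ∣ q.2.1 - A

/-- the matrices `(p, r; a, s)` of `Γ₀(17)` with `0 < a` -/
def inG (g : ℤ × ℤ × ℤ × ℤ) : Prop :=
  g.1 * g.2.2.2 - g.2.1 * g.2.2.1 = 1 ∧ (17 : ℤ) ∣ g.2.2.1 ∧ 0 < g.2.2.1

/-- the form of the image of `{∞, u / A}` -/
def qf (u A : ℤ) (g : ℤ × ℤ × ℤ × ℤ) : ℤ × ℤ × ℤ :=
  (-(g.2.2.1 * (g.2.2.1 * u + g.2.2.2 * A)),
    g.2.2.1 * (g.1 * u + g.2.1 * A) + (g.2.2.1 * u + g.2.2.2 * A) * g.1,
    -(g.1 * (g.1 * u + g.2.1 * A)))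

theorem qf_inA {u : ℤ} {A : ℕ} {g : ℤ × ℤ × ℤ × ℤ} (h : inG g) : inA A (qf u A g) := by
  obtain ⟨p, r, a, s⟩ := g
  obtain ⟨h1, ⟨a1, h2⟩, h3⟩ := h
  simp only at h1 h2 h3
  unfold inA qf
  simp only
  refine ⟨?_, ?_, ?_⟩
  · linear_combination (A : ℤ) ^ 2 * (p * s - r * a + 1) * h1
  · exact ⟨-(a1 * (a * u + s * A)), by rw [h2]; ring⟩
  · refine ⟨2 * a1 * (p * u + r * A), ?_⟩
    have e : a * (p * u + r * A) + (a * u + s * A) * p - A = 2 * a * (p * u + r * A) := by
      linear_combination (A : ℤ) * h1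
    rw [e, h2]
    ring

theorem qf_gn {u : ℤ} {A : ℕ} (hA : Squarefree A) (hu : IsCoprime u A) {g : ℤ × ℤ × ℤ × ℤ}
    (h : inG g) : gn A (qf u A g) = jacobiSym (-u) A := by
  obtain ⟨p, r, a, s⟩ := g
  obtain ⟨h1, -, -⟩ := h
  simp only at h1
  rw [← jac_sqfree (-u) hA]
  unfold gn qf
  refine Finset.prod_congr rfl fun l hl => ?_
  have hlp := Nat.prime_of_mem_primeFactors hl
  have hlA : (l : ℤ) ∣ A := by exact_mod_cast Nat.dvd_of_mem_primeFactors hl
  have hP : Prime (l : ℤ) := Nat.prime_iff_prime_int.1 hlp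
  have hlu : ¬ (l : ℤ) ∣ u := by
    intro h
    have := hu.isUnit_of_dvd' h hlA
    exact hP.not_isUnit this
  obtain ⟨A1, hA1⟩ := hlA
  have hsq : ∀ x : ℤ, ¬ (l : ℤ) ∣ x → jacobiSym (x ^ 2) l = 1 := by
    intro x hx
    have : NeZero l := ⟨hlp.ne_zero⟩
    rw [jacobiSym.pow_left]
    refine jacobiSym.sq_one ?_
    have := (Nat.Prime.coprime_iff_not_dvd hlp (n := x.natAbs)).2 (by
      rwa [← Int.natCast_dvd])
    rw [Int.gcd_comm]
    exact this
  simp only
  split_ifs with hd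
  · -- `l` divides `a`
    have ha : (l : ℤ) ∣ a := by
      rw [dvd_neg] at hd
      rcases hP.dvd_or_dvd hd with h2 | h2
      · exact h2
      · have h3 : (l : ℤ) ∣ a * u := by
          have : a * u = (a * u + s * A) - s * A := by ring
          rw [this]
          exact dvd_sub h2 (by rw [hA1]; exact ⟨s * A1, by ring⟩)
        exact (hP.dvd_or_dvd h3).resolve_right hlu
    have hp : ¬ (l : ℤ) ∣ p := by
      intro h2
      apply hP.not_isUnit
      exact isUnit_of_dvd_one (h1 ▸ dvd_sub (h2.mul_right _) (ha.mul_left _))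
    have e : jacobiSym (-(p * (p * u + r * A))) l = jacobiSym (p ^ 2 * -u) l := by
      rw [jacobiSym.mod_left, jacobiSym.mod_left (p ^ 2 * -u)]
      congr 1
      rw [hA1]
      refine Int.emod_eq_emod_iff_emod_sub_eq_zero.2 (Int.emod_eq_zero_of_dvd ?_)
      exact ⟨-(p * r * A1), by ring⟩
    rw [e, jacobiSym.mul_left, hsq p hp, one_mul]
  · have ha : ¬ (l : ℤ) ∣ a := fun h2 => hd (by
      rw [dvd_neg]
      exact h2.mul_right _)
    have e : jacobiSym (-(a * (a * u + s * A))) l = jacobiSym (a ^ 2 * -u) l := by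
      rw [jacobiSym.mod_left, jacobiSym.mod_left (a ^ 2 * -u)]
      congr 1
      rw [hA1]
      refine Int.emod_eq_emod_iff_emod_sub_eq_zero.2 (Int.emod_eq_zero_of_dvd ?_)
      exact ⟨-(a * s * A1), by ring⟩
    rw [e, jacobiSym.mul_left, hsq a ha, one_mul]

/-- the form determines the class and the matrix -/
theorem qf_inj {u u' : ℤ} {A : ℕ} (hA : 0 < A) (hu0 : 0 ≤ u) (hu1 : u < A) (hv0 : 0 ≤ u')
    (hv1 : u' < A) {g g' : ℤ × ℤ × ℤ × ℤ} (h : inG g) (h' : inG g')
    (hne : (qf u A g).1 ≠ 0) (e : qf u A g = qf u' A g') : u = u' ∧ g = g' := by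
  obtain ⟨p, r, a, s⟩ := g
  obtain ⟨q, t, b, w⟩ := g'
  obtain ⟨h1, -, h3⟩ := h
  obtain ⟨h1', -, h3'⟩ := h'
  unfold qf at e hne
  simp only [Prod.mk.injEq] at h1 h3 h1' h3' e hne
  obtain ⟨e1, e2, e3⟩ := e
  have hAz : (A : ℤ) ≠ 0 := by exact_mod_cast hA.ne'
  obtain ⟨a', ha'⟩ : ∃ a', a' = a * u + s * A := ⟨_, rfl⟩
  obtain ⟨p', hp'⟩ : ∃ p', p' = p * u + r * A := ⟨_, rfl⟩
  obtain ⟨b', hb'⟩ : ∃ b', b' = b * u' + w * A := ⟨_, rfl⟩
  obtain ⟨q', hq'⟩ : ∃ q', q' = q * u' + t * A := ⟨_, rfl⟩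
  have d1 : p * a' - a * p' = A := by rw [ha', hp']; linear_combination (A : ℤ) * h1
  have d2 : q * b' - b * q' = A := by rw [hb', hq']; linear_combination (A : ℤ) * h1'
  rw [← ha', ← hb'] at e1
  rw [← ha', ← hb', ← hp', ← hq'] at e2
  rw [← ha'] at hne
  rw [← hp', ← hq'] at e3
  have f1 : p * a' = q * b' := by linarith
  have f2 : a * p' = b * q' := by linarith
  have ha0 : a' ≠ 0 := by
    rintro h0
    rw [h0] at hne
    simp at hne
  have f3 : p * b = q * a := by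
    have : (p * b - q * a) * a' = 0 := by linear_combination b * f1 + q * e1
    have := (mul_eq_zero.1 this).resolve_right ha0
    linarith
  have f4 : a = b := by
    have k1 : a ∣ b := by
      have : IsCoprime a p := ⟨-r, s, by linear_combination h1⟩
      refine this.dvd_of_dvd_mul_left ⟨q, by linear_combination f3⟩
    have k2 : b ∣ a := by
      have : IsCoprime b q := ⟨-t, w, by linear_combination h1'⟩
      refine this.dvd_of_dvd_mul_left ⟨p, by linear_combination -f3⟩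
    exact Int.dvd_antisymm h3.le h3'.le k1 k2
  subst f4
  have f5 : p = q := mul_right_cancel₀ h3.ne' f3
  subst f5
  have f6 : a' = b' := by
    have : a * (a' - b') = 0 := by linear_combination -e1
    have := (mul_eq_zero.1 this).resolve_left h3.ne'
    linarith
  have f7 : p' = q' := by
    have : a * (p' - q') = 0 := by linear_combination f2
    have := (mul_eq_zero.1 this).resolve_left h3.ne'
    linarith
  have f8 : (A : ℤ) ∣ u - u' := by
    rw [ha', hb'] at f6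
    rw [hp', hq'] at f7
    refine ⟨s * (t - r) - r * (w - s), ?_⟩
    linear_combination s * f7 - r * f6 - (u - u') * h1
  have f9 : u = u' := by
    obtain ⟨k, hk⟩ := f8
    have k1 : (A : ℤ) * k < A := by linarith
    have k2 : -(A : ℤ) < A * k := by linarith
    have k3 : (0 : ℤ) < A := by exact_mod_cast hA
    have k4 : k < 1 := by nlinarith
    have k5 : -1 < k := by nlinarith
    have : k = 0 := by omega
    rw [this, mul_zero] at hk
    linarith
  subst f9
  refine ⟨rfl, ?_⟩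
  have f10 : s = w := by
    rw [ha', hb'] at f6
    have : (A : ℤ) * (s - w) = 0 := by linear_combination f6
    have := (mul_eq_zero.1 this).resolve_left hAz
    linarith
  have f11 : r = t := by
    rw [hp', hq'] at f7
    have : (A : ℤ) * (r - t) = 0 := by linear_combination f7
    have := (mul_eq_zero.1 this).resolve_left hAz
    linarith
  rw [f10, f11]

/-- a weight which vanishes on the forms which are not primitive at `A` -/
def Van (A : ℕ) (k : ℤ × ℤ × ℤ → ℤ) : Prop := ∀ (q : ℤ × ℤ × ℤ) (l : ℕ), l.Prime → l ∣ A →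
  (l : ℤ) ∣ q.1 → (l : ℤ) ∣ q.2.2 → k q = 0

theorem van_gn {A : ℕ} (hA : 0 < A) : Van A (gn A) := by
  intro q l hl hlA h1 h2
  unfold gn
  refine Finset.prod_eq_zero (Nat.mem_primeFactors.2 ⟨hl, hlA, hA.ne'⟩) ?_
  rw [if_pos h1]
  have : NeZero l := ⟨hl.ne_zero⟩
  rw [jacobiSym.eq_zero_iff_not_coprime]
  intro h5
  have h6 : (l : ℤ) ∣ (Int.gcd q.2.2 l : ℤ) := Int.dvd_coe_gcd h2 dvd_rfl
  rw [h5] at h6
  exact hl.one_lt.ne' (by exact_mod_cast Int.eq_one_of_dvd_one (by positivity) h6)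

/-- every form with nonvanishing genus symbol is an image -/
theorem qf_surj {A : ℕ} (hA : 0 < A) (h17 : ¬ 17 ∣ A) {w : ℤ × ℤ × ℤ → ℤ} (hw : Van A w)
    {q : ℤ × ℤ × ℤ} (hq : inA A q) (h0 : q.1 ≠ 0) (hgn : w q ≠ 0) :
    ∃ u ∈ un A, ∃ g, inG g ∧ qf (u : ℤ) A g = q := by
  obtain ⟨al, be, ga⟩ := q
  obtain ⟨h1, h2, h3⟩ := hq
  simp only at h1 h2 h3 h0
  have hAz : (A : ℤ) ≠ 0 := by exact_mod_cast hA.ne'
  have h17' : ¬ (17 : ℤ) ∣ A := by exact_mod_cast h17
  have h17P : Prime (17 : ℤ) := Int.prime_iff_natAbs_prime.2 (by norm_num)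
  -- halves
  obtain ⟨h, hh⟩ : ∃ h, be + A = 2 * h := by
    have h4 : (be + A) % 2 = 0 := by
      have h5 : (be ^ 2 - 4 * al * ga) % 2 = ((A : ℤ) ^ 2) % 2 := by rw [h1]
      have h6 : (be ^ 2 - 4 * al * ga) % 2 = (be ^ 2) % 2 := by
        have : be ^ 2 - 4 * al * ga = be ^ 2 + 2 * (-(2 * al * ga)) := by ring
        rw [this, Int.add_mul_emod_self_left]
      rw [h6] at h5
      rcases Int.emod_two_eq_zero_or_one be with hb | hb <;>
        rcases Int.emod_two_eq_zero_or_one (A : ℤ) with hc | hc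
      · omega
      · rw [pow_two, pow_two, Int.mul_emod, Int.mul_emod (A : ℤ), hb, hc] at h5
        norm_num at h5
      · rw [pow_two, pow_two, Int.mul_emod, Int.mul_emod (A : ℤ), hb, hc] at h5
        norm_num at h5
      · omega
    exact ⟨(be + A) / 2, by omega⟩
  obtain ⟨k, hk⟩ : ∃ k, (A : ℤ) - be = 2 * k := ⟨A - h, by linarith⟩
  have hhk : al * ga = -(h * k) := by
    have : 4 * (al * ga) = 4 * (-(h * k)) := by
      linear_combination -h1 - ((A : ℤ) - be) * hh - 2 * h * hk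
    linarith
  have hh17 : ¬ (17 : ℤ) ∣ h := by
    intro h5
    apply h17'
    obtain ⟨x, hx⟩ := h5
    obtain ⟨y, hy⟩ := h3
    have : (2 : ℤ) * A = 17 * (2 * x - y) := by linear_combination hh - hy + 2 * hx
    omega
  -- the divisor
  obtain ⟨c, p, a, hc0, hcp, hcal, hch⟩ : ∃ c p a : ℤ, 0 < c ∧ IsCoprime p a ∧ al = -(a * c) ∧
      h = c * p := by
    obtain ⟨p0, a0, k1, k2, k3⟩ := Int.exists_gcd_one (m := h) (n := al)
      (Int.gcd_pos_of_ne_zero_right _ h0)
    refine ⟨Int.gcd h al, p0, -a0, by exact_mod_cast Int.gcd_pos_of_ne_zero_right _ h0, ?_, ?_, ?_⟩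
    · exact (Int.isCoprime_iff_gcd_eq_one.2 k1).neg_right
    · linear_combination k3
    · linear_combination k2
  -- the sign
  obtain ⟨c, p, a, hc0, ha0, hcp, hcal, hch⟩ : ∃ c p a : ℤ, c ≠ 0 ∧ 0 < a ∧ IsCoprime p a ∧
      al = -(a * c) ∧ h = c * p := by
    have ha0 : a ≠ 0 := by rintro rfl; rw [zero_mul, neg_zero] at hcal; exact h0 hcal
    rcases lt_or_gt_of_ne ha0 with h4 | h4
    · refine ⟨-c, -p, -a, by omega, by omega, hcp.neg_neg, by rw [hcal]; ring, by rw [hch]; ring⟩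
    · exact ⟨c, p, a, hc0.ne', h4, hcp, hcal, hch⟩
  have hac : a ∣ k := by
    have e : a * ga = p * k := by
      have : c * (a * ga) = c * (p * k) := by
        linear_combination -hhk + ga * hcal + k * hch
      exact mul_left_cancel₀ hc0 this
    exact hcp.symm.dvd_of_dvd_mul_left ⟨ga, e.symm⟩
  obtain ⟨p1, hp1⟩ := hac
  -- `k = a p1`, so that `p' = - p1`
  have hga : ga = p * p1 := by
    have : c * a * ga = c * a * (p * p1) := by
      linear_combination -hhk + ga * hcal + k * hch + c * p * hp1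
    exact mul_left_cancel₀ (mul_ne_zero hc0 ha0.ne') this
  have h17a : (17 : ℤ) ∣ a := by
    rw [hcal, dvd_neg] at h2
    rcases h17P.dvd_or_dvd h2 with h5 | h5
    · exact h5
    · exact absurd (hch ▸ h5.mul_right p) hh17
  have hdet : p * c + a * p1 = A := by
    have : 2 * (p * c + a * p1) = 2 * (A : ℤ) := by
      linear_combination -hh - hk - 2 * hch - 2 * hp1
    linarith
  obtain ⟨s, y, hs⟩ := hcp
  -- `s p + y a = 1`, `r = - y`
  obtain ⟨u, hu⟩ : ∃ u, u = s * (-p1) + y * c := ⟨_, rfl⟩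
  have e1 : p * u + (-y) * A = -p1 := by
    rw [hu, ← hdet]
    linear_combination (-p1) * hs
  have e2 : a * u + s * A = c := by
    rw [hu, ← hdet]
    linear_combination c * hs
  -- reduction of `u`
  obtain ⟨j, hj⟩ : ∃ j, j = u / A := ⟨_, rfl⟩
  obtain ⟨u0, hu0⟩ : ∃ u0 : ℕ, (u0 : ℤ) = u - j * A := by
    refine ⟨(u % A).toNat, ?_⟩
    rw [Int.toNat_of_nonneg (Int.emod_nonneg _ hAz), hj, Int.emod_def]
    ring
  have hu0lt : u0 < A := by
    have h5 : (u0 : ℤ) = u % A := by rw [hu0, hj, Int.emod_def]; ring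
    have h6 : u % A < A := Int.emod_lt_of_pos _ (by exact_mod_cast hA)
    have h7 : (u0 : ℤ) < A := by rw [h5]; exact h6
    exact_mod_cast h7
  have e1' : p * u0 + (-y + j * p) * A = -p1 := by rw [hu0]; linear_combination e1
  have e2' : a * u0 + (s + j * a) * A = c := by rw [hu0]; linear_combination e2
  refine ⟨u0, ?_, (p, -y + j * p, a, s + j * a), ⟨?_, h17a, ha0⟩, ?_⟩
  · refine Finset.mem_filter.2 ⟨Finset.mem_range.2 hu0lt, ?_⟩
    by_contra hnc
    rw [Nat.Prime.not_coprime_iff_dvd] at hnc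
    obtain ⟨l, hl, hlu, hlA⟩ := hnc
    apply hgn
    have hlu' : (l : ℤ) ∣ u0 := by exact_mod_cast hlu
    have hlA' : (l : ℤ) ∣ A := by exact_mod_cast hlA
    have k1 : (l : ℤ) ∣ c := by
      rw [← e2']
      exact (hlu'.mul_left _).add (hlA'.mul_left _)
    have k2 : (l : ℤ) ∣ p1 := by
      rw [← dvd_neg, ← e1']
      exact (hlu'.mul_left _).add (hlA'.mul_left _)
    refine hw _ l hl hlA ?_ ?_
    · show (l : ℤ) ∣ al
      rw [hcal, dvd_neg]
      exact k1.mul_left _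
    · show (l : ℤ) ∣ ga
      rw [hga]
      exact k2.mul_left _
  · show p * (s + j * a) - (-y + j * p) * a = 1
    linear_combination hs
  · unfold qf
    simp only [Prod.mk.injEq]
    rw [e1', e2']
    refine ⟨hcal.symm, ?_, ?_⟩
    · have : 2 * (a * -p1 + c * p) = 2 * be := by
        linear_combination hk - hh + 2 * hp1 - 2 * hch
      linarith
    · rw [hga]; ring

end

end Pool.Agent.N974.PG
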