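import Pool.Agent.N975.S17.Hom

/-!
# The uniqueness of even homomorphisms on `Γ₀(17)`
-/

set_option autoImplicit false

namespace Pool.Agent.N974.PG

open Pool.Agent.N975.S17 (d_ne)

/-- an even homomorphism on `Γ₀(17)` -/
structure EvenHom {R : Type*} [AddCommGroup R] (φ : ℤ → ℤ → ℤ → ℤ → R) : Prop where
  hom : ∀ {a b c d a' b' c' d' : ℤ}, a * d - 17 * (b * c) = 1 → a' * d' - 17 * (b' * c') = 1 →
    φ (a * a' + b * (17 * c')) (a * b' + b * d') (c * a' + d * c') (17 * c * b' + d * d') =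
      φ a b c d + φ a' b' c' d'
  neg : ∀ {a b c d : ℤ}, a * d - 17 * (b * c) = 1 → φ (-a) (-b) (-c) (-d) = φ a b c d
  even : ∀ {a b c d : ℤ}, a * d - 17 * (b * c) = 1 → φ a (-b) (-c) d = φ a b c d
  h3 : φ 6 1 1 3 = 0

namespace EvenHom

variable {R : Type*} [AddCommGroup R] [NoZeroSMulDivisors ℤ R] {φ : ℤ → ℤ → ℤ → ℤ → R}

theorem two_zero {x : R} (h : x = -x) : x = 0 := Pool.Agent.N975.S17.OddHom.two_zero h

theorem one (H : EvenHom φ) : φ 1 0 0 1 = 0 := by
  have h := H.hom (a := 1) (b := 0) (c := 0) (d := 1) (a' := 1) (b' := 0) (c' := 0) (d' := 1)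
    (by norm_num) (by norm_num)
  norm_num at h
  exact h

theorem inv (H : EvenHom φ) {a b c d : ℤ} (h : a * d - 17 * (b * c) = 1) :
    φ d (-b) (-c) a = -φ a b c d := by
  have h1 := H.hom (a := a) (b := b) (c := c) (d := d) (a' := d) (b' := -b) (c' := -c) (d' := a)
    h (by linear_combination h)
  have e1 : a * d + b * (17 * -c) = 1 := by linear_combination h
  have e2 : a * -b + b * a = 0 := by ring
  have e3 : c * d + d * -c = 0 := by ring
  have e4 : 17 * c * -b + d * a = 1 := by linear_combination h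
  rw [e1, e2, e3, e4, H.one] at h1
  rw [eq_neg_iff_add_eq_zero, add_comm]
  exact h1.symm

theorem hT (H : EvenHom φ) : φ 1 1 0 1 = 0 := by
  have h1 := H.inv (a := 1) (b := 1) (c := 0) (d := 1) (by norm_num)
  have h2 := H.even (a := 1) (b := 1) (c := 0) (d := 1) (by norm_num)
  rw [h2] at h1
  exact two_zero h1

theorem hV (H : EvenHom φ) : φ 1 0 1 1 = 0 := by
  have h1 := H.inv (a := 1) (b := 0) (c := 1) (d := 1) (by norm_num)
  have h2 := H.even (a := 1) (b := 0) (c := 1) (d := 1) (by norm_num)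
  rw [h2] at h1
  exact two_zero h1

theorem hTk (H : EvenHom φ) (k : ℤ) : φ 1 k 0 1 = 0 := by
  induction k using Int.induction_on with
  | zero => exact H.one
  | succ n ih =>
    have h := H.hom (a := 1) (b := n) (c := 0) (d := 1) (a' := 1) (b' := 1) (c' := 0) (d' := 1)
      (by norm_num) (by norm_num)
    rw [ih, H.hT, add_zero] at h
    ring_nf at h ⊢
    exact h
  | pred n ih =>
    have h := H.hom (a := 1) (b := -(n : ℤ) - 1) (c := 0) (d := 1) (a' := 1) (b' := 1) (c' := 0)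
      (d' := 1) (by norm_num) (by norm_num)
    rw [H.hT, add_zero] at h
    rw [← h, ← ih]
    ring_nf

theorem hVk (H : EvenHom φ) (k : ℤ) : φ 1 0 k 1 = 0 := by
  induction k using Int.induction_on with
  | zero => exact H.one
  | succ n ih =>
    have h := H.hom (a := 1) (b := 0) (c := n) (d := 1) (a' := 1) (b' := 0) (c' := 1) (d' := 1)
      (by norm_num) (by norm_num)
    rw [ih, H.hV, add_zero] at h
    ring_nf at h ⊢
    exact h
  | pred n ih =>
    have h := H.hom (a := 1) (b := 0) (c := -(n : ℤ) - 1) (d := 1) (a' := 1) (b' := 0) (c' := 1)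
      (d' := 1) (by norm_num) (by norm_num)
    rw [H.hV, add_zero] at h
    rw [← h, ← ih]
    ring_nf

/-- the transpose-type symmetry -/
theorem tr (H : EvenHom φ) {a b c d : ℤ} (h : a * d - 17 * (b * c) = 1) :
    φ d b c a = -φ a b c d := by
  have h' : d * a - 17 * (b * c) = 1 := by linear_combination h
  have h1 := H.even h'
  rw [H.inv h] at h1
  exact h1.symm

theorem ref (H : EvenHom φ) {a b c d : ℤ} (h : a * d - 17 * (b * c) = 1) :
    φ (-a) b c (-d) = φ a b c d := by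
  have h' : (-a) * (-d) - 17 * (b * c) = 1 := by linear_combination h
  have h1 := H.neg h'
  rw [neg_neg, neg_neg] at h1
  rw [← h1, H.even h]

/-- invariance under translations -/
theorem trans (H : EvenHom φ) {a b c d : ℤ} (h : a * d - 17 * (b * c) = 1) (j k : ℤ) :
    φ (a + 17 * c * j) (b + j * d + k * (a + 17 * c * j)) c (d + 17 * c * k) = φ a b c d := by
  have h1 := H.hom (a := 1) (b := j) (c := 0) (d := 1) (a' := a) (b' := b) (c' := c) (d' := d)
    (by norm_num) h
  have h2 : (1 * a + j * (17 * c)) * (17 * 0 * b + 1 * d) - 17 * ((1 * b + j * d) *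
      (0 * a + 1 * c)) = 1 := by linear_combination h
  have h3 := H.hom (a := 1 * a + j * (17 * c)) (b := 1 * b + j * d) (c := 0 * a + 1 * c)
    (d := 17 * 0 * b + 1 * d) (a' := 1) (b' := k) (c' := 0) (d' := 1) h2 (by norm_num)
  rw [h1, H.hTk, H.hTk, zero_add, add_zero] at h3
  rw [← h3]
  congr 1 <;> ring

/-- the value at `(A, B; 17, D)` only depends on `D` modulo `17` -/
theorem modD (H : EvenHom φ) {A B D A' B' D' : ℤ} (h : A * D - 17 * (B * 1) = 1)
    (h' : A' * D' - 17 * (B' * 1) = 1) (hD : (17 : ℤ) ∣ D' - D) : φ A' B' 1 D' = φ A B 1 D := by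
  obtain ⟨k, hk⟩ := hD
  have hA : (17 : ℤ) ∣ A' - A := by
    have h1 : A' - A = 17 * (A * B' - A' * B - k * A * A') := by
      linear_combination -A' * h + A * h' - A * A' * hk
    exact ⟨_, h1⟩
  obtain ⟨j, hj⟩ := hA
  have h1 := H.trans h j k
  rw [← h1]
  have e1 : A' = A + 17 * 1 * j := by linear_combination hj
  have e2 : D' = D + 17 * 1 * k := by linear_combination hk
  have e3 : B' = B + j * D + k * (A + 17 * 1 * j) := by
    rw [e1, e2] at h'
    have : 17 * B' = 17 * (B + j * D + k * (A + 17 * 1 * j)) := by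
      linear_combination h - h'
    omega
  rw [← e3, ← e1, ← e2]

theorem step (H : EvenHom φ) {A B D A' B' : ℤ} (h : A * D - 17 * (B * 1) = 1)
    (h' : A' * (D + 1) - 17 * (B' * 1) = 1) :
    φ (A * (D + 1) - 17 * B) (B * A' - A * B') 1 (D * A' - 17 * B') =
      φ A B 1 D - φ A' B' 1 (D + 1) := by
  have h1 := H.inv h'
  have h2 := H.hom (a := A) (b := B) (c := 1) (d := D) (a' := D + 1) (b' := -B') (c' := -1)
    (d' := A') h (by linear_combination h')
  rw [h1, ← sub_eq_add_neg] at h2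
  rw [← h2]
  congr 1 <;> ring

theorem g4 (H : EvenHom φ) : φ 13 3 1 4 = 0 := by
  have h1 : φ 4 3 1 13 = -φ 13 3 1 4 := H.tr (by norm_num)
  have h3 := H.ref (by norm_num : (13 : ℤ) * 4 - 17 * (3 * 1) = 1)
  have h4 : φ 4 3 1 13 = φ (-13) 3 1 (-4) := H.modD (by norm_num) (by norm_num) (by norm_num)
  rw [h4, h3] at h1
  exact two_zero h1

theorem g5 (H : EvenHom φ) : φ 7 2 1 5 = 0 := by
  have h1 := H.step (A := 6) (B := 1) (D := 3) (A' := 13) (B' := 3) (by norm_num) (by norm_num)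
  norm_num at h1
  rw [H.h3, H.g4, sub_zero] at h1
  have h4 : φ 7 2 1 5 = φ 7 (-5) 1 (-12) := H.modD (by norm_num) (by norm_num) (by norm_num)
  rw [h4, h1]

theorem g2 (H : EvenHom φ) : φ 9 1 1 2 = 0 := by
  have h1 := H.step (A := 9) (B := 1) (D := 2) (A' := 6) (B' := 1) (by norm_num) (by norm_num)
  norm_num at h1
  rw [H.h3, sub_zero] at h1
  have h3 := H.ref (by norm_num : (7 : ℤ) * 5 - 17 * (2 * 1) = 1)
  have h4 : φ 10 (-3) 1 (-5) = φ (-7) 2 1 (-5) := H.modD (by norm_num) (by norm_num) (by norm_num)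
  rw [h4, h3, H.g5] at h1
  exact h1.symm

theorem g6 (H : EvenHom φ) : φ 3 1 1 6 = 0 := by
  rw [H.tr (by norm_num : (6 : ℤ) * 3 - 17 * (1 * 1) = 1), H.h3, neg_zero]

theorem g7 (H : EvenHom φ) : φ 5 2 1 7 = 0 := by
  rw [H.tr (by norm_num : (7 : ℤ) * 5 - 17 * (2 * 1) = 1), H.g5, neg_zero]

theorem g8 (H : EvenHom φ) : φ 15 7 1 8 = 0 := by
  have h1 : φ 2 1 1 9 = -φ 9 1 1 2 := H.tr (by norm_num)
  rw [H.g2, neg_zero] at h1
  have h3 := H.ref (by norm_num : (2 : ℤ) * 9 - 17 * (1 * 1) = 1)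
  have h4 : φ 15 7 1 8 = φ (-2) 1 1 (-9) := H.modD (by norm_num) (by norm_num) (by norm_num)
  rw [h4, h3, h1]

/-- the values at the generators -/
theorem gen (H : EvenHom φ) {A B D : ℤ} (h : A * D - 17 * (B * 1) = 1) : φ A B 1 D = 0 := by
  have key : ∀ {A0 B0 D0 : ℤ}, A0 * D0 - 17 * (B0 * 1) = 1 → φ A0 B0 1 D0 = 0 →
      ((17 : ℤ) ∣ D - D0 ∨ (17 : ℤ) ∣ D + D0) → φ A B 1 D = 0 := by
    intro A0 B0 D0 h0 h1 h2
    rcases h2 with h2 | h2
    · rw [H.modD h0 h h2, h1]
    · have h3 := H.ref h0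
      have h4 : (-A0) * (-D0) - 17 * (B0 * 1) = 1 := by linear_combination h0
      rw [H.modD h4 h (by rwa [sub_neg_eq_add]), h3, h1]
  have hD : ¬ (17 : ℤ) ∣ D := by
    rintro ⟨k, rfl⟩
    have h1 : (17 : ℤ) ∣ 1 := ⟨A * k - B, by linear_combination -h⟩
    norm_num at h1
  have hc : ((17 : ℤ) ∣ D - 1 ∨ (17 : ℤ) ∣ D + 1) ∨ ((17 : ℤ) ∣ D - 2 ∨ (17 : ℤ) ∣ D + 2) ∨
      ((17 : ℤ) ∣ D - 3 ∨ (17 : ℤ) ∣ D + 3) ∨ ((17 : ℤ) ∣ D - 4 ∨ (17 : ℤ) ∣ D + 4) ∨
      ((17 : ℤ) ∣ D - 5 ∨ (17 : ℤ) ∣ D + 5) ∨ ((17 : ℤ) ∣ D - 6 ∨ (17 : ℤ) ∣ D + 6) ∨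
      ((17 : ℤ) ∣ D - 7 ∨ (17 : ℤ) ∣ D + 7) ∨ ((17 : ℤ) ∣ D - 8 ∨ (17 : ℤ) ∣ D + 8) := by
    omega
  rcases hc with hc | hc | hc | hc | hc | hc | hc | hc
  · exact key (A0 := 1) (B0 := 0) (by norm_num) H.hV hc
  · exact key (A0 := 9) (B0 := 1) (by norm_num) H.g2 hc
  · exact key (A0 := 6) (B0 := 1) (by norm_num) H.h3 hc
  · exact key (A0 := 13) (B0 := 3) (by norm_num) H.g4 hc
  · exact key (A0 := 7) (B0 := 2) (by norm_num) H.g5 hc
  · exact key (A0 := 3) (B0 := 1) (by norm_num) H.g6 hc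
  · exact key (A0 := 5) (B0 := 2) (by norm_num) H.g7 hc
  · exact key (A0 := 15) (B0 := 7) (by norm_num) H.g8 hc

theorem base (H : EvenHom φ) {a b c : ℤ} (h : a * 1 - 17 * (b * c) = 1) : φ a b c 1 = 0 := by
  have h1 := H.hom (a := 1) (b := b) (c := 0) (d := 1) (a' := 1) (b' := 0) (c' := c) (d' := 1)
    (by norm_num) (by norm_num)
  rw [H.hTk, H.hVk, add_zero] at h1
  rw [← h1]
  congr 1
  · linear_combination h
  · ring
  · ring

/-- an even homomorphism vanishing at `(6, 1; 17, 3)` vanishes -/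
theorem zero (H : EvenHom φ) (n : ℕ) : ∀ a b c d : ℤ, a * d - 17 * (b * c) = 1 → d.natAbs = n →
    φ a b c d = 0 := by
  induction n using Nat.strong_induction_on with
  | _ n ih =>
    intro a b c d h hn
    have hd := d_ne h
    by_cases h1 : d = 1
    · subst h1
      exact H.base h
    by_cases h2 : d = -1
    · subst h2
      rw [← H.neg h]
      exact H.base (by linear_combination h)
    -- the reduction
    have hnd : ¬ d ∣ 17 * b := by
      rintro ⟨k, hk⟩
      have h3 : d ∣ 1 := ⟨a - k * c, by linear_combination -h - c * hk⟩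
      rcases Int.isUnit_iff.1 (isUnit_of_dvd_one h3) with h4 | h4
      · exact h1 h4
      · exact h2 h4
    have hr0 := Int.emod_nonneg (17 * b) hd
    have hr1 := Int.emod_lt_abs (17 * b) hd
    have hr2 : 17 * b % d ≠ 0 := fun h3 => hnd (Int.dvd_of_emod_eq_zero h3)
    have hr3 := Int.emod_add_mul_ediv (17 * b) d
    have step1 : ∀ D : ℤ, ¬ (17 : ℤ) ∣ D → |17 * b + D * d| < |d| → φ a b c d = 0 := by
      intro D hD hlt
      obtain ⟨A, B, hAB⟩ : ∃ A B : ℤ, A * D - 17 * (B * 1) = 1 := by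
        have h3 : IsCoprime D 17 := by
          rw [isCoprime_comm]
          exact (Int.prime_iff_natAbs_prime.2 (by norm_num)).coprime_iff_not_dvd.2 hD
        obtain ⟨u, v, huv⟩ := h3
        exact ⟨u, -v, by linear_combination huv⟩
      have h3 := H.hom (a := A) (b := B) (c := 1) (d := D) (a' := a) (b' := b) (c' := c) (d' := d)
        hAB h
      rw [H.gen hAB, zero_add] at h3
      rw [← h3]
      refine ih _ ?_ _ _ _ _ ?_ rfl
      · rw [← hn]
        zify
        have e : 17 * 1 * b + D * d = 17 * b + D * d := by ring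
        rw [e]
        exact hlt
      · linear_combination h + (a * d - 17 * (b * c)) * hAB
    by_cases h3 : (17 : ℤ) ∣ (17 * b / d)
    · rcases lt_or_gt_of_ne hd with h4 | h4
      · refine step1 (-(17 * b / d) + 1) (by omega) ?_
        have e : 17 * b + (-(17 * b / d) + 1) * d = 17 * b % d + d := by linear_combination -hr3
        rw [e, abs_of_neg h4, abs_lt]
        rw [abs_of_neg h4] at hr1
        constructor <;> omega
      · refine step1 (-(17 * b / d) - 1) (by omega) ?_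
        have e : 17 * b + (-(17 * b / d) - 1) * d = 17 * b % d - d := by linear_combination -hr3
        rw [e, abs_of_pos h4, abs_lt]
        rw [abs_of_pos h4] at hr1
        constructor <;> omega
    · refine step1 (-(17 * b / d)) (by omega) ?_
      have e : 17 * b + (-(17 * b / d)) * d = 17 * b % d := by linear_combination -hr3
      rw [e, abs_of_nonneg hr0]
      exact hr1

end EvenHom

end Pool.Agent.N974.PG
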