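import Pool.Agent.N974.PG.Even
import Pool.Agent.N974.Gen.LfinP
import Pool.Agent.N974.Gen.Models
import Pool.Agent.N975.S17.Fin

/-!
# The even symbol of level `17` as the only even homomorphism
-/

set_option autoImplicit false

open UpperHalfPlane MatrixGroups CongruenceSubgroup

namespace Pool.Agent.N974.PG

open Pool.Agent.N975.S17 (d_ne)
open Pool.Agent.N974.Gen

/-- the relations of the even symbol which are used -/
structure SymbE {R : Type*} [AddCommGroup R] (s : ℚ → R) : Prop where
  neg : ∀ x, s (-x) = s x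
  aff : ∀ {A B C D : ℤ}, A * D - B * (17 * C) = 1 → ∀ r : ℚ, (17 : ℚ) * C * r + D ≠ 0 →
    s ((A * r + B) / ((17 : ℚ) * C * r + D)) = s r + s ((B : ℚ) / D) - s 0

/-- a homomorphism with the even symmetry -/
structure EvH {R : Type*} [AddCommGroup R] (φ : ℤ → ℤ → ℤ → ℤ → R) : Prop where
  hom : ∀ {a b c d a' b' c' d' : ℤ}, a * d - 17 * (b * c) = 1 → a' * d' - 17 * (b' * c') = 1 →
    φ (a * a' + b * (17 * c')) (a * b' + b * d') (c * a' + d * c') (17 * c * b' + d * d') =
      φ a b c d + φ a' b' c' d'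
  neg : ∀ {a b c d : ℤ}, a * d - 17 * (b * c) = 1 → φ (-a) (-b) (-c) (-d) = φ a b c d
  even : ∀ {a b c d : ℤ}, a * d - 17 * (b * c) = 1 → φ a (-b) (-c) d = φ a b c d

variable {R : Type*} [CommRing R]

/-- the symbol is an even homomorphism -/
theorem evH_of {s : ℚ → R} (H : SymbE s) : EvH (fun _ b _ d : ℤ => s ((b : ℚ) / d) - s 0) where
  hom := by
    intro a b c d a' b' c' d' h h'
    have hd := d_ne h
    have hd' := d_ne h'
    have hD : 17 * c * b' + d * d' ≠ 0 :=
      d_ne (a := a * a' + b * (17 * c')) (b := a * b' + b * d') (c := c * a' + d * c')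
        (by linear_combination h' + (a' * d' - 17 * (b' * c')) * h)
    have hdq : (d : ℚ) ≠ 0 := by exact_mod_cast hd
    have hdq' : (d' : ℚ) ≠ 0 := by exact_mod_cast hd'
    have hDq : (17 : ℚ) * c * b' + d * d' ≠ 0 := by exact_mod_cast hD
    have h0 : (17 : ℚ) * c * ((b' : ℚ) / d') + d ≠ 0 := by
      intro h1
      apply hDq
      field_simp at h1
      linear_combination h1
    have h1 := H.aff (A := a) (B := b) (C := c) (D := d) (by linear_combination h)
      ((b' : ℚ) / d') h0
    have e1 : ((a : ℚ) * ((b' : ℚ) / d') + b) / ((17 : ℚ) * c * ((b' : ℚ) / d') + d) =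
        ((a * b' + b * d' : ℤ) : ℚ) / ((17 * c * b' + d * d' : ℤ) : ℚ) := by
      push_cast
      rw [div_eq_div_iff h0 hDq]
      field_simp
    rw [e1] at h1
    rw [h1]
    ring
  neg := by
    intro a b c d _
    push_cast
    rw [neg_div_neg_eq]
  even := by
    intro a b c d _
    push_cast
    rw [neg_div, H.neg]

/-- **comparison**: every even homomorphism in terms of the even symbol -/
theorem even_eq [NoZeroSMulDivisors ℤ R] {s : ℚ → R} (H : SymbE s) {Ψ : ℤ → ℤ → ℤ → ℤ → R}
    (G : EvH Ψ) {a b c d : ℤ} (h : a * d - 17 * (b * c) = 1) :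
    (s (1 / 3) - s 0) * Ψ a b c d = Ψ 6 1 1 3 * (s ((b : ℚ) / d) - s 0) := by
  have K := evH_of H
  have E : EvenHom (fun a b c d : ℤ => (s (1 / 3) - s 0) * Ψ a b c d -
      Ψ 6 1 1 3 * (s ((b : ℚ) / d) - s 0)) := by
    refine ⟨?_, ?_, ?_, ?_⟩
    · intro a b c d a' b' c' d' h h'
      have h1 := K.hom h h'
      have h2 := G.hom h h'
      rw [h1, h2]
      ring
    · intro a b c d h
      have h1 := K.neg h
      rw [h1, G.neg h]
    · intro a b c d h
      have h1 := K.even h
      rw [h1, G.even h]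
    · push_cast
      ring
  exact sub_eq_zero.1 (E.zero d.natAbs a b c d h rfl)

variable {f : CuspForm (Gamma0 17 : Subgroup (GL (Fin 2) ℝ)) 2}

theorem symbE_re {a : ℕ → ℤ} (h : Eigen f a) : SymbE (fun r => (II f r).re) where
  neg := (symbP h (by norm_num)).neg
  aff := by
    intro A B C D hd r hr
    have := (symbP h (by norm_num)).aff (A := A) (B := B) (C := C) (D := D) (by exact_mod_cast hd) r
      (by exact_mod_cast hr)
    exact_mod_cast this

/-- the even symbol is not constant -/
theorem re_ne {a : ℕ → ℤ} (h : Eigen f a) (h2 : a 2 ≠ 3) :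
    (II f (1 / 3)).re - (II f 0).re ≠ 0 := by
  intro h0
  have hf : f ≠ 0 := by
    rintro rfl
    have h1 := h.one
    have h2 : cf (0 : CuspForm (Gamma0 17 : Subgroup (GL (Fin 2) ℝ)) 2) 1 = 0 := by
      unfold cf
      have h3 : ((0 : CuspForm (Gamma0 17 : Subgroup (GL (Fin 2) ℝ)) 2) : UpperHalfPlane → ℂ) = 0 :=
        rfl
      rw [h3, UpperHalfPlane.qExpansion_zero]
      simp
    exact absurd (h1.symm.trans h2) one_ne_zero
  have P := symbP h (by norm_num : 1 < 17)
  have K := evH_of (symbE_re h)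
  have E : EvenHom (fun _ b _ d : ℤ => (II f ((b : ℚ) / d)).re - (II f 0).re) := by
    refine ⟨K.hom, K.neg, K.even, ?_⟩
    push_cast
    exact h0
  have key : ∀ {a b c d : ℤ}, a * d - 17 * (b * c) = 1 → (II f ((b : ℚ) / d)).re = (II f 0).re :=
    fun {a b c d} h => sub_eq_zero.1 (E.zero d.natAbs a b c d h rfl)
  have e2 := key (a := 9) (b := 1) (c := 1) (d := 2) (by norm_num)
  have hh := P.hecke 2 Nat.prime_two (by norm_num) 0
  rw [Finset.sum_range_succ, Finset.sum_range_succ, Finset.sum_range_zero] at hh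
  norm_num at hh
  norm_num at e2
  rw [e2] at hh
  have h3 : ((a 2 : ℝ) - 3) * (II f 0).re = 0 := by linear_combination hh
  have h4 : (II f 0).re = 0 := by
    rcases mul_eq_zero.1 h3 with h5 | h5
    · exfalso
      apply h2
      have : (a 2 : ℝ) = 3 := by linarith
      exact_mod_cast this
    · exact h5
  obtain ⟨r, hr⟩ := Pool.Agent.N975.NV.exists_re_ne f hf one_ne_zero
  rw [one_mul] at hr
  apply hr
  -- all cusps
  have hden : (r.den : ℚ) ≠ 0 := by exact_mod_cast r.den_ne_zero
  have hred : IsCoprime r.num (r.den : ℤ) := by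
    rw [Int.isCoprime_iff_gcd_eq_one, Int.gcd_eq_natAbs, Int.natAbs_natCast]
    exact r.reduced
  by_cases h17 : (17 : ℤ) ∣ r.den
  · obtain ⟨c, hc⟩ := h17
    have hc0 : c ≠ 0 := by
      rintro rfl
      rw [mul_zero] at hc
      exact r.den_ne_zero (by exact_mod_cast hc)
    obtain ⟨u, v, huv⟩ := hred
    have hd : r.num * u - (-v) * (17 * c) = 1 := by
      rw [← hc]
      linear_combination huv
    have h5 := P.aff_inf (A := r.num) (B := -v) (C := c) (D := u) (by exact_mod_cast hd) hc0
    have h6 := key (a := r.num) (b := -v) (c := c) (d := u) (by linear_combination hd)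
    have e : (r.num : ℚ) / (((17 : ℕ) : ℚ) * c) = r := by
      have hc' : ((17 : ℕ) : ℚ) * c = r.den := by
        have : ((r.den : ℤ) : ℚ) = ((17 * c : ℤ) : ℚ) := by rw [hc]
        push_cast at this ⊢
        exact this.symm
      rw [hc']
      exact Rat.num_div_den r
    rw [e] at h5
    rw [h5, h6, sub_self]
  · have hcop : IsCoprime (17 * r.num) (r.den : ℤ) := by
      refine IsCoprime.mul_left ?_ hred
      exact (Int.prime_iff_natAbs_prime.2 (by norm_num)).coprime_iff_not_dvd.2 h17
    obtain ⟨u, v, huv⟩ := hcop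
    have h6 := key (a := v) (b := r.num) (c := -u) (d := r.den) (by linear_combination huv)
    have e : ((r.num : ℤ) : ℚ) / ((r.den : ℤ) : ℚ) = r := by
      exact_mod_cast Rat.num_div_den r
    rw [e] at h6
    rw [h6, h4]

end Pool.Agent.N974.PG
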