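import Pool.Agent.N974.PG.Bd3
import Pool.Agent.N974.PG.EvenS
import Pool.Agent.N975.PG.Gn
import Pool.Agent.N975.S17.Cmp

/-!
# The character sums of the even symbol in terms of the odd homomorphism of the discriminant `A`
-/

set_option autoImplicit false

open Finset UpperHalfPlane MatrixGroups CongruenceSubgroup

namespace Pool.Agent.N974.PG

open Pool.Agent.N975.PG (gn U X E E' wi wo HH HH_hom HH_neg HH_even Wt Parity inF wt_gn parity_gn
  X_neg X_add E'_pos)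
open Pool.Agent.N975.Sym (ev ev10)
open Pool.Agent.N975.S17 (d_ne sum_unZ)
open Pool.Agent.N969.P15 (un)
open Pool.Agent.N974.Gen

noncomputable section

/-- the counting function as a sum over forms -/
theorem X_W {A : ℕ} {w : ℤ × ℤ × ℤ → ℤ} (x : ℤ) {m : ℤ} (hm : m ≠ 0) :
    X A w x m = 2 * ∑ᶠ q, Wq A w x m q := by
  classical
  have h1 : ∀ q, U A w 1 0 x m q = Wq A w x m q + Wq A w x m q := by
    intro q
    unfold U Wq
    have e : inF (A : ℤ) q ↔ inA A q := Iff.rfl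
    rw [ev10, e]
    by_cases h : inA A q ∧ q.1 * ev q x m < 0
    · have h2 : q.1 ≠ 0 := by rintro h0; rw [h0, zero_mul] at h; exact lt_irrefl _ h.2
      have h3 : ev q x m ≠ 0 := by rintro h0; rw [h0, mul_zero] at h; exact lt_irrefl _ h.2
      rw [if_pos ⟨h.1, h2, h3⟩, if_pos h]
      rcases lt_or_gt_of_ne h2 with h4 | h4
      · have h5 : 0 < ev q x m := by
          by_contra h6
          push Not at h6
          exact absurd h.2 (not_lt.2 (mul_nonneg_of_nonpos_of_nonpos h4.le h6))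
        rw [Int.sign_eq_neg_one_of_neg h4, Int.sign_eq_one_of_pos h5]
        ring
      · have h5 : ev q x m < 0 := by
          by_contra h6
          push Not at h6
          exact absurd h.2 (not_lt.2 (mul_nonneg h4.le h6))
        rw [Int.sign_eq_one_of_pos h4, Int.sign_eq_neg_one_of_neg h5]
        ring
    · rw [if_neg h, add_zero]
      split_ifs with h2
      · obtain ⟨h3, h4, h5⟩ := h2
        have h6 : ¬ q.1 * ev q x m < 0 := fun h7 => h ⟨h3, h7⟩
        rcases lt_or_gt_of_ne h4 with h7 | h7 <;> rcases lt_or_gt_of_ne h5 with h8 | h8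
        · rw [Int.sign_eq_neg_one_of_neg h7, Int.sign_eq_neg_one_of_neg h8]
          ring
        · exact absurd (mul_neg_of_neg_of_pos h7 h8) h6
        · exact absurd (mul_neg_of_pos_of_neg h7 h8) h6
        · rw [Int.sign_eq_one_of_pos h7, Int.sign_eq_one_of_pos h8]
          ring
      · rfl
  have hfin : (Function.support (Wq A w x m)).Finite := by
    refine (fin_forms A x hm).subset ?_
    intro q hq
    simp only [Function.mem_support, Wq, ne_eq, ite_eq_right_iff, Classical.not_imp] at hq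
    exact ⟨hq.1.1.1, hq.1.2⟩
  unfold X
  rw [finsum_congr h1, finsum_add_distrib hfin hfin]
  ring

/-! ### the even homomorphism of discriminant `9` -/

theorem wt3 : Wt ((3 : ℕ) : ℤ) (gn 3) := wt_gn (by norm_num) (by norm_num)

theorem par3 : Parity ((3 : ℕ) : ℤ) (gn 3) (-1) := by
  have h := parity_gn (A := 3) Nat.prime_three.prime.squarefree
  have e : jacobiSym (-1) 3 = -1 := by norm_num
  rwa [e] at h

theorem evH3 : EvH (fun _ b c d : ℤ => ((HH ((3 : ℕ) : ℤ) (gn 3) b c d : ℤ) : ℝ)) where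
  hom := by
    intro a b c d a' b' c' d' h h'
    rw [HH_hom wt3 h h']
    push_cast
    rfl
  neg := by
    intro a b c d h
    rw [HH_neg (d_ne h)]
  even := by
    intro a b c d _
    rw [HH_even wt3 par3]

theorem X3_one : X ((3 : ℕ) : ℤ) (gn 3) 1 3 = 0 := by
  rw [X_W 1 (by norm_num)]
  have : ∀ q, Wq 3 (gn 3) 1 3 q = 0 := by
    intro q
    unfold Wq
    rw [if_neg]
    rintro ⟨⟨h1, ⟨t, h2⟩, ⟨j, h3⟩⟩, h4⟩
    push_cast at h1 h3
    have e : 4 * (q.1 * ev q 1 3) = (2 * q.1 + 3 * q.2.1) ^ 2 - 81 := by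
      unfold ev
      linear_combination (-9) * h1
    have h5 : (2 * q.1 + 3 * q.2.1) ^ 2 < 9 ^ 2 := by nlinarith
    have h6 := abs_lt_of_sq_lt_sq' h5 (by norm_num)
    have h7 : q.2.1 % 2 = 1 := by
      rcases Int.emod_two_eq_zero_or_one q.2.1 with h8 | h8
      · exfalso
        have h9 : (q.2.1 ^ 2) % 2 = 0 := by rw [pow_two, Int.mul_emod, h8]; rfl
        have h10 : q.2.1 ^ 2 = 9 + 2 * (2 * q.1 * q.2.2) := by linear_combination h1
        rw [h10] at h9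
        omega
      · exact h8
    omega
  rw [finsum_congr this, finsum_zero, mul_zero]

theorem X3_zero : X ((3 : ℕ) : ℤ) (gn 3) 0 1 = 0 := by
  rw [X_W 0 (by norm_num)]
  have : ∀ q, Wq 3 (gn 3) 0 1 q = 0 := by
    intro q
    unfold Wq
    rw [if_neg]
    rintro ⟨⟨h1, ⟨t, h2⟩, ⟨j, h3⟩⟩, h4⟩
    push_cast at h1 h3
    have e : 4 * (q.1 * ev q 0 1) = q.2.1 ^ 2 - 9 := by
      unfold ev
      linear_combination (-1) * h1
    have h5 : q.2.1 ^ 2 < 3 ^ 2 := by nlinarith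
    have h6 := abs_lt_of_sq_lt_sq' h5 (by norm_num)
    omega
  rw [finsum_congr this, finsum_zero, mul_zero]

theorem HH3_val : HH ((3 : ℕ) : ℤ) (gn 3) 1 1 3 = 2 := by
  unfold HH
  have hwi : wi ((3 : ℕ) : ℤ) (gn 3) = w3 := wi_eq
  have hwo : wo ((3 : ℕ) : ℤ) (gn 3) = fun C => -w3 C := wo_eq
  rw [X3_one, X3_zero, hwi, hwo, E'_neg_w, E'_pos (by norm_num), E'_pos (by norm_num)]
  have h1 : E w3 ((3 : ℕ) : ℤ) 1 3 = -1 := by
    have := E3_val (x := 1) (m := 3) (by norm_num) (by norm_num)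
    exact_mod_cast this
  have h2 : E w3 ((3 : ℕ) : ℤ) (-1) 3 = -1 := by
    have h3 := E3_val (x := 2) (m := 3) (by norm_num) (by norm_num)
    have h4 := E3_add (m := 3) (by norm_num) (-1)
    have h5 : E w3 3 (-1) 3 = -1 := by
      rw [← h4]
      have : (-1 : ℤ) + 3 = 2 := by norm_num
      rw [this, h3]
      rfl
    exact_mod_cast h5
  rw [h1, h2]
  norm_num

/-! ### the character sums -/

variable {A : ℕ} {χ : ℤ → ℤ} {w : ℤ × ℤ × ℤ → ℤ}

theorem chi_neg (C : ChrP A χ) (u : ℤ) : χ (-u) = χ u := by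
  have h := C.mul (-1) u
  rw [C.neg, one_mul] at h
  rw [← h]
  congr 1
  ring

/-- exchange of the two discriminants -/
theorem sumX (C : ChrP A χ) (G : Gw A w χ) (W : Wt A w) (P : Parity A w 1) :
    ∑ u ∈ un A, χ u * X ((3 : ℕ) : ℤ) (gn 3) u A = 2 * X A w 1 3 := by
  have hA : (0 : ℤ) < A := by exact_mod_cast G.pos
  have G3 : Gw 3 (gn 3) (fun u => jacobiSym u 3) :=
    gw_gn Nat.prime_three.prime.squarefree (by norm_num)
  have hun : un 3 = {1, 2} := by decide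
  have e1 : ∀ u : ℕ, X ((3 : ℕ) : ℤ) (gn 3) u A = 2 * K u A 2 3 - 2 * K u A 1 3 := by
    intro u
    rw [X_W u hA.ne', sum_W G3 u hA.ne', hun, Finset.sum_pair (by decide)]
    have j1 : jacobiSym (-((1 : ℕ) : ℤ)) 3 = -1 := by norm_num
    have j2 : jacobiSym (-((2 : ℕ) : ℤ)) 3 = 1 := by norm_num
    simp only [j1, j2]
    have s1 := swap (A := (A : ℤ)) (B := 3) hA (by norm_num) u 1
    have s2 := swap (A := (A : ℤ)) (B := 3) hA (by norm_num) u 2
    push_cast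
    rw [s1, s2]
    ring
  have e2 : ∀ x : ℤ, X A w x 3 = -2 * ∑ u ∈ un A, χ u * K u A x 3 := by
    intro x
    rw [X_W x (by norm_num), sum_W G x (by norm_num)]
    have : ∀ u ∈ un A, χ (-(u : ℤ)) * K u A x 3 = χ u * K u A x 3 := fun u _ => by
      rw [chi_neg C]
    rw [Finset.sum_congr rfl this]
    ring
  have e3 : X A w 2 3 = -X A w 1 3 := by
    have h1 := X_add W (-1) 3
    have h2 := X_neg (Or.inl rfl) P 1 3
    have h3 : (-1 : ℤ) + 3 = 2 := by norm_num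
    rw [h3, h2] at h1
    rw [h1]
    ring
  have e4 : ∑ u ∈ un A, χ u * X ((3 : ℕ) : ℤ) (gn 3) u A =
      2 * ∑ u ∈ un A, χ u * K u A 2 3 - 2 * ∑ u ∈ un A, χ u * K u A 1 3 := by
    rw [Finset.mul_sum, Finset.mul_sum, ← Finset.sum_sub_distrib]
    refine Finset.sum_congr rfl fun u _ => ?_
    rw [e1]
    ring
  rw [e4]
  have h1 := e2 1
  have h2 := e2 2
  rw [e3] at h2
  linarith

/-- **the character sum of the even symbol** -/
theorem sum_even (C : ChrP A χ) (G : Gw A w χ) (W : Wt A w) (P : Parity A w 1) {s : ℚ → ℝ}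
    (H : SymbE s) : ∑ u ∈ un A, (χ u : ℝ) * s ((u : ℚ) / A) =
      (s (1 / 3) - s 0) * ((X A w 1 3 - 2 * bdc A χ : ℤ) : ℝ) := by
  have hA : (0 : ℤ) < A := by exact_mod_cast G.pos
  have : NeZero A := ⟨by have := G.pos; omega⟩
  have hc : Nat.Coprime 17 A := (Nat.Prime.coprime_iff_not_dvd (by norm_num)).2 G.cop
  obtain ⟨t, ht⟩ : ∃ t : (ZMod A)ˣ, t = ZMod.unitOfCoprime 17 hc := ⟨_, rfl⟩
  have htv : (t : ZMod A) = 17 := by
    rw [ht, ZMod.coe_unitOfCoprime]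
    push_cast
    rfl
  -- the values of the symbol
  have hval : ∀ u : (ZMod A)ˣ, (s (1 / 3) - s 0) *
      ((HH ((3 : ℕ) : ℤ) (gn 3) (((u : ZMod A).val : ℕ) : ℤ)
        (-(((((t * u)⁻¹ : (ZMod A)ˣ) : ZMod A).val : ℕ) : ℤ)) A : ℤ) : ℝ) =
      2 * (s ((((u : ZMod A).val : ℕ) : ℚ) / A) - s 0) := by
    intro u
    obtain ⟨j, hj⟩ : ∃ j : ℕ, j = (((t * u)⁻¹ : (ZMod A)ˣ) : ZMod A).val := ⟨_, rfl⟩
    rw [← hj]
    have hdv : (A : ℤ) ∣ 1 - 17 * ((((u : ZMod A).val : ℕ) : ℤ) * (j : ℤ)) := by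
      rw [← ZMod.intCast_zmod_eq_zero_iff_dvd]
      push_cast
      rw [hj, ZMod.natCast_zmod_val, ZMod.natCast_zmod_val]
      have h7 : ((t * u : (ZMod A)ˣ) : ZMod A) * (((t * u)⁻¹ : (ZMod A)ˣ) : ZMod A) = 1 :=
        Units.mul_inv _
      rw [Units.val_mul, htv] at h7
      linear_combination -h7
    obtain ⟨a, ha⟩ := hdv
    have h1 := even_eq H evH3 (a := a) (b := (((u : ZMod A).val : ℕ) : ℤ)) (c := -(j : ℤ))
      (d := (A : ℤ)) (by linear_combination -ha)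
    rw [h1, HH3_val]
    push_cast
    rfl
  -- the sum of the values of the homomorphism
  have hsum : ∑ u : (ZMod A)ˣ, χ (((u : ZMod A).val : ℕ) : ℤ) *
      HH ((3 : ℕ) : ℤ) (gn 3) (((u : ZMod A).val : ℕ) : ℤ)
        (-(((((t * u)⁻¹ : (ZMod A)ˣ) : ZMod A).val : ℕ) : ℤ)) A =
      2 * (X A w 1 3 - 2 * bdc A χ) := by
    have hwi : wi ((3 : ℕ) : ℤ) (gn 3) = w3 := wi_eq
    have hwo : wo ((3 : ℕ) : ℤ) (gn 3) = fun C => -w3 C := wo_eq
    have e0 : ∀ u : (ZMod A)ˣ, χ (((u : ZMod A).val : ℕ) : ℤ) *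
        HH ((3 : ℕ) : ℤ) (gn 3) (((u : ZMod A).val : ℕ) : ℤ)
          (-(((((t * u)⁻¹ : (ZMod A)ˣ) : ZMod A).val : ℕ) : ℤ)) A =
        χ (((u : ZMod A).val : ℕ) : ℤ) * X ((3 : ℕ) : ℤ) (gn 3) (((u : ZMod A).val : ℕ) : ℤ) A -
        χ (((u : ZMod A).val : ℕ) : ℤ) * E w3 3 (((u : ZMod A).val : ℕ) : ℤ) A -
        χ (((u : ZMod A).val : ℕ) : ℤ) *
          E w3 3 (((((t * u)⁻¹ : (ZMod A)ˣ) : ZMod A).val : ℕ) : ℤ) A := by
      intro u
      unfold HH
      rw [X3_zero, hwi, hwo, E'_neg_w, neg_neg, E'_pos hA, E'_pos hA]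
      push_cast
      ring
    have e2 : ∑ u : (ZMod A)ˣ, χ (((u : ZMod A).val : ℕ) : ℤ) *
          E w3 3 (((((t * u)⁻¹ : (ZMod A)ˣ) : ZMod A).val : ℕ) : ℤ) A =
        ∑ v : (ZMod A)ˣ, χ (((v : ZMod A).val : ℕ) : ℤ) *
          E w3 3 (((v : ZMod A).val : ℕ) : ℤ) A := by
      refine Finset.sum_bij' (fun u _ => (t * u)⁻¹) (fun v _ => t⁻¹ * v⁻¹) (fun _ _ => mem_univ _)
        (fun _ _ => mem_univ _) ?_ ?_ ?_
      · intro u _
        simp
      · intro v _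
        simp
      · intro u _
        congr 1
        -- the character at the inverse
        obtain ⟨v, hv⟩ : ∃ v : (ZMod A)ˣ, v = (t * u)⁻¹ := ⟨_, rfl⟩
        rw [← hv]
        have h1 : χ (17 * ((((u : ZMod A).val : ℕ) : ℤ) * (((v : ZMod A).val : ℕ) : ℤ))) =
            χ 1 := by
          refine C.per _ _ ?_
          rw [← ZMod.intCast_zmod_eq_zero_iff_dvd]
          push_cast
          rw [ZMod.natCast_zmod_val, ZMod.natCast_zmod_val]
          have h7 : ((t * u : (ZMod A)ˣ) : ZMod A) * (v : ZMod A) = 1 := by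
            rw [hv]; exact Units.mul_inv _
          rw [Units.val_mul, htv] at h7
          linear_combination h7
        rw [C.mul, C.mul, C.v17, C.one] at h1
        have h2 := C.pm _ (ZMod.val_coe_unit_coprime u)
        have h3 := C.pm _ (ZMod.val_coe_unit_coprime v)
        rcases h2 with h2 | h2 <;> rcases h3 with h3 | h3 <;> rw [h2, h3] at h1 ⊢ <;> omega
    have e3 : ∑ v : (ZMod A)ˣ, χ (((v : ZMod A).val : ℕ) : ℤ) *
        E w3 3 (((v : ZMod A).val : ℕ) : ℤ) A = 2 * bdc A χ := by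
      rw [← sum_unZ (fun j => χ j * E w3 3 j A), sum_E3 C]
    have e4 : ∑ v : (ZMod A)ˣ, χ (((v : ZMod A).val : ℕ) : ℤ) *
        X ((3 : ℕ) : ℤ) (gn 3) (((v : ZMod A).val : ℕ) : ℤ) A = 2 * X A w 1 3 := by
      rw [← sum_unZ (fun j => χ j * X ((3 : ℕ) : ℤ) (gn 3) j A), sumX C G W P]
    rw [Finset.sum_congr rfl fun u _ => e0 u, Finset.sum_sub_distrib, Finset.sum_sub_distrib, e2,
      e3, e4]
    ring
  have hz : ∑ v : (ZMod A)ˣ, (χ (((v : ZMod A).val : ℕ) : ℤ) : ℝ) = 0 := by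
    have h1 := C.sum
    rw [sum_unZ (fun j => χ j)] at h1
    exact_mod_cast congrArg (Int.cast (R := ℝ)) h1
  rw [sum_unZ]
  have f1 : ∑ u : (ZMod A)ˣ, (χ (((u : ZMod A).val : ℕ) : ℤ) : ℝ) *
      (2 * (s ((((u : ZMod A).val : ℕ) : ℚ) / A) - s 0)) =
      (s (1 / 3) - s 0) * (2 * ((X A w 1 3 - 2 * bdc A χ : ℤ) : ℝ)) := by
    have h1 := congrArg (Int.cast (R := ℝ)) hsum
    push_cast at h1 ⊢
    rw [← h1, Finset.mul_sum]
    refine Finset.sum_congr rfl fun u _ => ?_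
    have h2 := hval u
    push_cast at h2
    rw [← h2]
    ring
  have f2 : ∑ u : (ZMod A)ˣ, (χ (((u : ZMod A).val : ℕ) : ℤ) : ℝ) *
      (2 * (s ((((u : ZMod A).val : ℕ) : ℚ) / A) - s 0)) =
      2 * ∑ u : (ZMod A)ˣ, (χ (((u : ZMod A).val : ℕ) : ℤ) : ℝ) *
        s ((((u : ZMod A).val : ℕ) : ℚ) / A) -
      2 * s 0 * ∑ u : (ZMod A)ˣ, (χ (((u : ZMod A).val : ℕ) : ℤ) : ℝ) := by
    rw [Finset.mul_sum, Finset.mul_sum, ← Finset.sum_sub_distrib]
    refine Finset.sum_congr rfl fun u _ => ?_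
    ring
  rw [f2, hz] at f1
  linarith

end

end Pool.Agent.N974.PG
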